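import Mathlib

open Polynomial

namespace Pool.Agent.D8ed36Alg

section general
variable {R S : Type*} [CommRing R] [CommRing S]

/-- `F = 4X^3 + (X+t)^2`. -/
noncomputable def FF (t : R) : R[X] := 4 * X ^ 3 + (X + C t) ^ 2

lemma FF_map (r : R →+* S) (t : R) : (FF t).map r = FF (r t) := by
  simp [FF]

lemma FF_eq (t : R) : FF t = C 4 * X ^ 3 + C 1 * X ^ 2 + C (2 * t) * X ^ 1 + C (t ^ 2) * X ^ 0 := by
  have h2 : (C (2 : R)) = (2 : R[X]) := rfl
  have h4 : (C (4 : R)) = (4 : R[X]) := rfl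
  simp only [FF, C_mul, C_pow, h2, h4, C_1]
  ring

lemma FF_coeff0 (t : R) : (FF t).coeff 0 = t ^ 2 := by
  rw [FF_eq]; simp only [coeff_add, coeff_C_mul, coeff_X_pow]; simp
lemma FF_coeff1 (t : R) : (FF t).coeff 1 = 2 * t := by
  rw [FF_eq]; simp only [coeff_add, coeff_C_mul, coeff_X_pow]; simp
lemma FF_coeff2 (t : R) : (FF t).coeff 2 = 1 := by
  rw [FF_eq]; simp only [coeff_add, coeff_C_mul, coeff_X_pow]; simp
lemma FF_coeff3 (t : R) : (FF t).coeff 3 = 4 := by
  rw [FF_eq]; simp only [coeff_add, coeff_C_mul, coeff_X_pow]; simp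

lemma FF_natDegree_le (t : R) : (FF t).natDegree ≤ 3 := by
  rw [FF_eq]
  compute_degree

lemma FF_expand (t : R) (p : ℕ) : expand R p (FF t) = 4 * (X ^ p) ^ 3 + (X ^ p + C t) ^ 2 := by
  have h4 : (4 : R[X]) = C 4 := rfl
  simp only [FF, map_add, map_mul, map_pow, expand_X, expand_C, h4]

/-- The Cartier operator on coefficients. -/
noncomputable def Ca (p : ℕ) (u : R[X]) : R[X] :=
  ∑ j ∈ Finset.range (u.natDegree + 1), C (u.coeff (p * j + (p - 1))) * X ^ j

lemma Ca_coeff {p : ℕ} (hp : 0 < p) (u : R[X]) (j : ℕ) :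
    (Ca p u).coeff j = u.coeff (p * j + (p - 1)) := by
  unfold Ca
  simp only [finsetSum_coeff, coeff_C_mul, coeff_X_pow]
  by_cases hj : j < u.natDegree + 1
  · rw [Finset.sum_eq_single j]
    · simp
    · intro b _ hb
      simp [Ne.symm hb]
    · intro h; exact absurd (Finset.mem_range.2 hj) h
  · rw [Finset.sum_eq_zero]
    · symm
      apply coeff_eq_zero_of_natDegree_lt
      have : j ≤ p * j := Nat.le_mul_of_pos_left j hp
      omega
    · intro b hb
      have : j ≠ b := by have := Finset.mem_range.1 hb; omega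
      simp [this]

lemma Ca_add {p : ℕ} (hp : 0 < p) (u v : R[X]) : Ca p (u + v) = Ca p u + Ca p v := by
  ext j; simp [Ca_coeff hp]

lemma Ca_C_mul {p : ℕ} (hp : 0 < p) (a : R) (v : R[X]) : Ca p (C a * v) = C a * Ca p v := by
  ext j; simp [Ca_coeff hp]

lemma Ca_expand_mul {p : ℕ} (hp : 0 < p) (f u : R[X]) :
    Ca p (expand R p f * u) = f * Ca p u := by
  induction f using Polynomial.induction_on' with
  | add f g hf hg => rw [map_add, add_mul, Ca_add hp, hf, hg, add_mul]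
  | monomial i a =>
    ext j
    rw [Ca_coeff hp, expand_monomial, ← C_mul_X_pow_eq_monomial, ← C_mul_X_pow_eq_monomial,
      mul_assoc, mul_assoc, coeff_C_mul, coeff_C_mul, coeff_X_pow_mul', coeff_X_pow_mul',
      Ca_coeff hp]
    congr 1
    by_cases hij : i ≤ j
    · rw [if_pos hij, if_pos]
      · congr 1
        rw [Nat.mul_sub, mul_comm i p]
        have : p * i ≤ p * j := Nat.mul_le_mul_left p hij
        omega
      · have : p * i ≤ p * j := Nat.mul_le_mul_left p hij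
        rw [mul_comm i p]; omega
    · rw [if_neg hij, if_neg]
      intro h
      have : p * (j + 1) ≤ p * i := Nat.mul_le_mul_left p (by omega)
      rw [mul_comm i p] at h
      rw [Nat.mul_add] at this
      omega

lemma Ca_derivative {p : ℕ} (hp : 0 < p) [CharP R p] (u : R[X]) : Ca p (derivative u) = 0 := by
  ext j
  rw [Ca_coeff hp, coeff_derivative]
  have : ((p * j + (p - 1) : ℕ) : R) + 1 = 0 := by
    have h : ((p * (j + 1) : ℕ) : R) = 0 := by simp
    rw [← h]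
    have h2 : p * (j + 1) = (p * j + (p - 1)) + 1 := by rw [Nat.mul_add]; omega
    rw [h2]; push_cast; ring
  rw [this]; simp

lemma Ca_map {p : ℕ} (hp : 0 < p) (r : R →+* S) (u : R[X]) : (Ca p u).map r = Ca p (u.map r) := by
  ext j; simp [Ca_coeff hp]

lemma FF_pow_natDegree_le (t : R) (n : ℕ) : ((FF t) ^ n).natDegree ≤ 3 * n := by
  refine natDegree_pow_le.trans ?_
  rw [mul_comm 3 n]
  exact Nat.mul_le_mul_left n (FF_natDegree_le t)

end general

section main
variable {O : Type*} [CommRing O] [IsDomain O] {p : ℕ} [hpf : Fact p.Prime]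

omit [IsDomain O] in
lemma poly_ker (r : O →+* ZMod p) (hr : ∀ x, r x = 0 ↔ (p : O) ∣ x) (f : O[X])
    (h : f.map r = 0) : ∃ g : O[X], f = C (p : O) * g := by
  have : C (p : O) ∣ f := by
    rw [C_dvd_iff_dvd_coeff]
    intro i
    rw [← hr, ← coeff_map, h, coeff_zero]
  exact this

lemma FF_ne_zero {R : Type*} [CommRing R] [IsDomain R] (t : R) (ht : t ≠ 0) : FF t ≠ 0 := by
  intro h
  have := FF_coeff0 t
  rw [h, coeff_zero] at this
  exact pow_ne_zero 2 ht this.symm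

omit [IsDomain O] in
lemma sign_exists (hp5 : 5 ≤ p) (r : O →+* ZMod p) (hr : ∀ x, r x = 0 ↔ (p : O) ∣ x)
    (t : O) (ht : r t ≠ 0) (N1 D1 V : O[X])
    (E2 : FF t * V ^ 2 = (1 + C (p : O) * D1) * (4 * (X ^ p + C (p : O) * N1) ^ 3 +
      (1 + C (p : O) * D1) * ((X ^ p + C (p : O) * N1) + C t * (1 + C (p : O) * D1)) ^ 2)) :
    ∃ ε : O, (ε = 1 ∨ ε = -1) ∧ ∃ V1 : O[X],
      V = C ε * (FF t) ^ ((p - 1) / 2) + C (p : O) * V1 := by
  have hE := congrArg (Polynomial.map r) E2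
  have hrp : r (p : O) = 0 := (hr _).2 dvd_rfl
  simp only [Polynomial.map_mul, Polynomial.map_pow, Polynomial.map_add, map_C,
    Polynomial.map_one, map_X, hrp, C_0, zero_mul, add_zero, FF_map, mul_one, one_mul,
    Polynomial.map_ofNat] at hE
  rw [← FF_expand, ZMod.expand_card] at hE
  have hodd : p = 2 * ((p - 1) / 2) + 1 := by
    have h1 : p % 2 = 1 := (hpf.out.eq_two_or_odd).resolve_left (by omega)
    omega
  have hF : FF (r t) ≠ 0 := FF_ne_zero _ ht
  have h2 : (V.map r) ^ 2 = (FF (r t) ^ ((p - 1) / 2)) ^ 2 := by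
    apply mul_left_cancel₀ hF
    have hpw : FF (r t) ^ p = FF (r t) ^ (2 * ((p - 1) / 2) + 1) :=
      congrArg (fun n => FF (r t) ^ n) hodd
    rw [hE, hpw]
    ring
  rcases sq_eq_sq_iff_eq_or_eq_neg.1 h2 with h | h
  · refine ⟨1, Or.inl rfl, ?_⟩
    obtain ⟨g, hg⟩ := poly_ker r hr (V - FF t ^ ((p - 1) / 2)) (by simp [FF_map, h])
    exact ⟨g, by rw [C_1, one_mul, ← hg]; ring⟩
  · refine ⟨-1, Or.inr rfl, ?_⟩
    obtain ⟨g, hg⟩ := poly_ker r hr (V + FF t ^ ((p - 1) / 2)) (by simp [FF_map, h])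
    exact ⟨g, by rw [C_neg, C_1, ← hg]; ring⟩

omit [IsDomain O] in
lemma K_exists (r : O →+* ZMod p) (hr : ∀ x, r x = 0 ↔ (p : O) ∣ x) (t : O) :
    ∃ K : O[X], expand O p (FF t) = FF t ^ p + C (p : O) * K := by
  obtain ⟨g, hg⟩ := poly_ker r hr (expand O p (FF t) - FF t ^ p) (by
    rw [Polynomial.map_sub, Polynomial.map_pow, map_expand, ZMod.expand_card, sub_self])
  exact ⟨g, by rw [← hg]; ring⟩

omit hpf in
/-- `E1` divided by `pi`. -/
lemma E1' (hp0 : (p : O) ≠ 0) (pi pb : O) (hpp : pi * pb = p) (N1 D1 V : O[X])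
    (E1 : derivative (X ^ p + C (p : O) * N1) * (1 + C (p : O) * D1) -
      (X ^ p + C (p : O) * N1) * derivative (1 + C (p : O) * D1) = C pi * V) :
    V = C pb * ((X ^ (p - 1) + derivative N1) * (1 + C (p : O) * D1) -
      (X ^ p + C (p : O) * N1) * derivative D1) := by
  have hCp : (C (p : O)) ≠ 0 := by rw [Ne, C_eq_zero]; exact hp0
  have h1 : derivative (X ^ p + C (p : O) * N1) = C (p : O) * (X ^ (p - 1) + derivative N1) := by
    simp [derivative_X_pow]
    ring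
  have h2 : derivative (1 + C (p : O) * D1) = C (p : O) * derivative D1 := by simp
  rw [h1, h2] at E1
  apply mul_left_cancel₀ hCp
  have h3 : C (p : O) = C pi * C pb := by rw [← C_mul, hpp]
  have h4 : C (p : O) * V = C pb * (C pi * V) := by rw [h3]; ring
  rw [h4, ← E1]
  ring

/-- The expansion of `E2` modulo `p^2`, divided by `p`. -/
lemma E2_expand (hp0 : (p : O) ≠ 0) (hp5 : 5 ≤ p) (t ε : O) (hε : ε ^ 2 = 1)
    (N1 D1 V1 K : O[X])
    (hK : expand O p (FF t) = FF t ^ p + C (p : O) * K)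
    (E2 : FF t * (C ε * (FF t) ^ ((p - 1) / 2) + C (p : O) * V1) ^ 2 =
      (1 + C (p : O) * D1) * (4 * (X ^ p + C (p : O) * N1) ^ 3 +
      (1 + C (p : O) * D1) * ((X ^ p + C (p : O) * N1) + C t * (1 + C (p : O) * D1)) ^ 2)) :
    ∃ Z : O[X], K + (12 * (X ^ p) ^ 2 + 2 * (X ^ p + C t)) * (N1 - X ^ p * D1) +
      4 * D1 * expand O p (FF t) =
      2 * C ε * FF t * (FF t) ^ ((p - 1) / 2) * V1 + C (p : O) * Z := by
  have hCp : (C (p : O)) ≠ 0 := by rw [Ne, C_eq_zero]; exact hp0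
  have hodd : p = 2 * ((p - 1) / 2) + 1 := by
    have h1 : p % 2 = 1 := (hpf.out.eq_two_or_odd).resolve_left (by omega)
    omega
  have hε' : (C ε : O[X]) ^ 2 = 1 := by rw [← C_pow, hε, C_1]
  have hpw : FF t ^ p = FF t * (FF t ^ ((p - 1) / 2)) ^ 2 := by
    have : FF t ^ p = FF t ^ (2 * ((p - 1) / 2) + 1) :=
      congrArg (fun n => FF t ^ n) hodd
    rw [this]; ring
  rw [FF_expand] at hK ⊢
  generalize (X : O[X]) ^ p = P at *
  generalize FF t ^ ((p - 1) / 2) = G at *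
  generalize FF t ^ p = Fp at *
  generalize FF t = F at *
  generalize C (p : O) = q at *
  generalize C t = u at *
  generalize C ε = e at *
  refine ⟨F * V1 ^ 2 - ((12 * P * N1 ^ 2 + 12 * D1 * P ^ 2 * N1 + D1 ^ 2 * (P + u) ^ 2 +
    4 * D1 * (P + u) * (N1 + u * D1) + (N1 + u * D1) ^ 2) +
    q * (4 * N1 ^ 3 + 12 * D1 * P * N1 ^ 2 + 2 * D1 ^ 2 * (P + u) * (N1 + u * D1) +
      2 * D1 * (N1 + u * D1) ^ 2) +
    q ^ 2 * (4 * D1 * N1 ^ 3 + D1 ^ 2 * (N1 + u * D1) ^ 2)), ?_⟩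
  apply mul_left_cancel₀ hCp
  linear_combination (-1 : O[X]) * E2 + F * G ^ 2 * hε' - hpw - hK

lemma two_ne (hp5 : 5 ≤ p) : (2 : ZMod p) ≠ 0 := by
  intro h
  have : ((2 : ℕ) : ZMod p) = 0 := by exact_mod_cast h
  rw [ZMod.natCast_eq_zero_iff] at this
  have := Nat.le_of_dvd (by norm_num) this
  omega

lemma four_ne (hp5 : 5 ≤ p) : (4 : ZMod p) ≠ 0 := by
  have := pow_ne_zero 2 (two_ne (p := p) hp5)
  intro h
  apply this
  rw [← h]; norm_num

lemma FF_natDegree (hp5 : 5 ≤ p) (t : ZMod p) : (FF t).natDegree = 3 := by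
  apply le_antisymm (FF_natDegree_le t)
  apply le_natDegree_of_ne_zero
  rw [FF_coeff3]
  exact four_ne hp5

lemma Ca_sq (hp5 : 5 ≤ p) (S : (ZMod p)[X]) : Ca p (derivative S * S) = 0 := by
  have hp0 : 0 < p := by omega
  have h1 : derivative (S * S) = C 2 * (derivative S * S) := by
    have h2 : (C (2 : ZMod p)) = (2 : (ZMod p)[X]) := rfl
    rw [derivative_mul, h2]; ring
  have h3 := Ca_derivative hp0 (S * S)
  rw [h1, Ca_C_mul hp0] at h3
  have h4 : (C (2 : ZMod p)) ≠ 0 := by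
    rw [Ne, C_eq_zero]; exact two_ne hp5
  exact (mul_eq_zero.1 h3).resolve_left h4

lemma Ca_X_mul (hp5 : 5 ≤ p) (S : (ZMod p)[X]) (hS : S.natDegree < 2 * p) :
    Ca p (X ^ (p - 1) * S) = C (S.coeff 0) + C (S.coeff p) * X := by
  have hp0 : 0 < p := by omega
  ext j
  rw [Ca_coeff hp0, coeff_X_pow_mul, coeff_add, coeff_C_mul, coeff_C, coeff_X]
  rcases j with _ | _ | j
  · simp
  · simp
  · have : S.coeff (p * (j + 1 + 1)) = 0 := by
      apply coeff_eq_zero_of_natDegree_lt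
      have : p * 2 ≤ p * (j + 1 + 1) := Nat.mul_le_mul_left p (by omega)
      omega
    rw [this]
    simp

lemma deriv_coeff_zero (hp5 : 5 ≤ p) (S : (ZMod p)[X]) : (derivative S).coeff (p - 1) = 0 := by
  rw [coeff_derivative]
  have h : ((p - 1 : ℕ) : ZMod p) + 1 = 0 := by
    have h1 : ((p - 1 + 1 : ℕ) : ZMod p) = 0 := by
      rw [Nat.sub_add_cancel (by omega)]; simp
    rw [← h1]; push_cast; ring
  rw [h]; simp

lemma main_k (hp5 : 5 ≤ p) (t e κ : ZMod p) (ht : t ≠ 0) (he : e ^ 2 = 1)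
    (N D V1 K : (ZMod p)[X]) (hN : N.natDegree ≤ p) (hD : D.natDegree < p)
    (hKd : K.natDegree ≤ 3 * p)
    (hG : C e * (FF t) ^ ((p - 1) / 2) =
      C κ * (X ^ (p - 1) + derivative N - X ^ p * derivative D))
    (hE : K + (12 * (X ^ p) ^ 2 + 2 * (X ^ p + C t)) * (N - X ^ p * D) +
      4 * D * expand (ZMod p) p (FF t) =
      2 * C e * FF t * (FF t) ^ ((p - 1) / 2) * V1) :
    ((FF t) ^ ((p - 1) / 2)).coeff (p - 1) = e * κ ∧
    ∃ μ : ZMod p,
      μ = 2 * e * V1.coeff (p - 1) -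
        4 * (e * κ) * (D.coeff 0 + (derivative N * D).coeff (p - 1)) ∧
      (Ca p ((FF t) ^ ((p - 1) / 2) * K)).coeff 0 + (e * κ) * (2 * t * N.coeff 0) =
        t ^ 2 * μ ∧
      (Ca p ((FF t) ^ ((p - 1) / 2) * K)).coeff 1 + (e * κ) * (2 * N.coeff 0 +
        2 * t * (N.coeff p - D.coeff 0)) = 2 * t * μ ∧
      (Ca p ((FF t) ^ ((p - 1) / 2) * K)).coeff 2 + (e * κ) * (12 * N.coeff 0 +
        2 * (N.coeff p - D.coeff 0)) = μ := by
  have hp0 : 0 < p := by omega
  have hodd : p = 2 * ((p - 1) / 2) + 1 := by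
    have h1 : p % 2 = 1 := (hpf.out.eq_two_or_odd).resolve_left (by omega)
    omega
  have hGdeg : ((FF t) ^ ((p - 1) / 2)).natDegree ≤ 3 * ((p - 1) / 2) :=
    FF_pow_natDegree_le t _
  have hpw : FF t * (FF t ^ ((p - 1) / 2)) * (FF t ^ ((p - 1) / 2)) = expand (ZMod p) p (FF t) := by
    rw [ZMod.expand_card]
    have : FF t ^ p = FF t ^ (2 * ((p - 1) / 2) + 1) :=
      congrArg (fun n => FF t ^ n) hodd
    rw [this]; ring
  generalize FF t ^ ((p - 1) / 2) = G at *
  obtain ⟨S, hS⟩ : ∃ S : (ZMod p)[X], S = N - X ^ p * D := ⟨_, rfl⟩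
  have hS' : derivative S = derivative N - X ^ p * derivative D := by
    rw [hS, derivative_sub, derivative_mul, derivative_X_pow]
    simp
  have he' : C e * C e = (1 : (ZMod p)[X]) := by rw [← C_mul, ← pow_two, he, C_1]
  have hG' : G = C (e * κ) * (X ^ (p - 1) + derivative S) := by
    have : G = C e * (C e * G) := by rw [← mul_assoc, he', one_mul]
    rw [this, hG, hS', C_mul]; ring
  have hSdeg : S.natDegree < 2 * p := by
    rw [hS]
    refine (natDegree_sub_le _ _).trans_lt ?_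
    have h1 : (X ^ p * D : (ZMod p)[X]).natDegree ≤ p + D.natDegree := by
      refine natDegree_mul_le.trans ?_
      rw [natDegree_X_pow]
    apply max_lt <;> omega
  have hS0 : S.coeff 0 = N.coeff 0 := by
    rw [hS, coeff_sub, coeff_X_pow_mul', if_neg (by omega), sub_zero]
  have hSp : S.coeff p = N.coeff p - D.coeff 0 := by
    rw [hS, coeff_sub, coeff_X_pow_mul', if_pos le_rfl, Nat.sub_self]
  have hH : G.coeff (p - 1) = e * κ := by
    rw [hG', coeff_C_mul, coeff_add, coeff_X_pow_self, deriv_coeff_zero hp5]; ring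
  refine ⟨hH, ?_⟩
  have hf' : (12 * (X ^ p) ^ 2 + 2 * (X ^ p + C t) : (ZMod p)[X]) =
      expand (ZMod p) p (12 * X ^ 2 + 2 * (X + C t)) := by
    have h12 : (12 : (ZMod p)[X]) = C 12 := rfl
    have h2 : (2 : (ZMod p)[X]) = C 2 := rfl
    simp only [map_add, map_mul, map_pow, expand_X, expand_C, h12, h2]
  have hmul : G * K + expand (ZMod p) p (12 * X ^ 2 + 2 * (X + C t)) * (G * S) =
      expand (ZMod p) p (FF t) * (C (2 * e) * V1 - 4 * D * G) := by
    rw [← hf', hS, C_mul]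
    have h2 : (C (2 : ZMod p)) = (2 : (ZMod p)[X]) := rfl
    rw [h2]
    linear_combination G * hE + 2 * C e * V1 * hpw
  have hCa := congrArg (Ca p) hmul
  rw [Ca_add hp0, Ca_expand_mul hp0, Ca_expand_mul hp0] at hCa
  have hGS : Ca p (G * S) = C (e * κ) * (C (N.coeff 0) + C (N.coeff p - D.coeff 0) * X) := by
    have : G * S = C (e * κ) * (X ^ (p - 1) * S) + C (e * κ) * (derivative S * S) := by
      conv_lhs => rw [hG']
      ring
    rw [this, Ca_add hp0, Ca_C_mul hp0, Ca_C_mul hp0, Ca_sq hp5, Ca_X_mul hp5 S hSdeg,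
      hS0, hSp]
    ring
  rw [hGS] at hCa
  have hexp : (12 * X ^ 2 + 2 * (X + C t) : (ZMod p)[X]) *
      (C (e * κ) * (C (N.coeff 0) + C (N.coeff p - D.coeff 0) * X)) =
      C (e * κ * (12 * (N.coeff p - D.coeff 0))) * X ^ 3 +
      C (e * κ * (12 * N.coeff 0 + 2 * (N.coeff p - D.coeff 0))) * X ^ 2 +
      C (e * κ * (2 * N.coeff 0 + 2 * t * (N.coeff p - D.coeff 0))) * X ^ 1 +
      C (e * κ * (2 * t * N.coeff 0)) * X ^ 0 := by
    have h12 : (C (12 : ZMod p)) = (12 : (ZMod p)[X]) := rfl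
    have h2 : (C (2 : ZMod p)) = (2 : (ZMod p)[X]) := rfl
    simp only [C_mul, C_add, C_sub, h12, h2]
    ring
  rw [hexp] at hCa
  -- degree
  have hL : (Ca p (G * K)).natDegree ≤ 3 := by
    rw [natDegree_le_iff_coeff_eq_zero]
    intro j hj
    rw [Ca_coeff hp0]
    apply coeff_eq_zero_of_natDegree_lt
    have h1 : (G * K).natDegree ≤ 3 * ((p - 1) / 2) + 3 * p :=
      natDegree_mul_le.trans (by omega)
    have h2 : p * 4 ≤ p * j := Nat.mul_le_mul_left p hj
    omega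
  have hR : (FF t * Ca p (C (2 * e) * V1 - 4 * D * G)).natDegree ≤ 3 := by
    rw [← hCa]
    refine (natDegree_add_le _ _).trans (max_le hL ?_)
    compute_degree
  have hM : Ca p (C (2 * e) * V1 - 4 * D * G) =
      C ((Ca p (C (2 * e) * V1 - 4 * D * G)).coeff 0) := by
    apply eq_C_of_natDegree_le_zero
    by_cases h0 : Ca p (C (2 * e) * V1 - 4 * D * G) = 0
    · rw [h0]; simp
    · rw [natDegree_mul (FF_ne_zero t ht) h0, FF_natDegree hp5] at hR
      omega
  refine ⟨(Ca p (C (2 * e) * V1 - 4 * D * G)).coeff 0, ?_, ?_, ?_, ?_⟩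
  · rw [Ca_coeff hp0, mul_zero, zero_add, coeff_sub, coeff_C_mul]
    have h4 : (4 * D * G : (ZMod p)[X]) = C (4 * (e * κ)) * (D * X ^ (p - 1) +
        derivative N * D - X ^ p * (derivative D * D)) := by
      have h4 : (C (4 : ZMod p)) = (4 : (ZMod p)[X]) := rfl
      simp only [hG', hS', C_mul, h4]
      ring
    rw [h4, coeff_C_mul, coeff_sub, coeff_add, coeff_X_pow_mul', if_neg (by omega),
      coeff_mul_X_pow', if_pos le_rfl, Nat.sub_self]
    ring
  · have := congrArg (fun q => q.coeff 0) hCa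
    rw [hM, coeff_mul_C, FF_coeff0, coeff_add] at this
    rw [← this]
    simp only [coeff_add, coeff_C_mul, coeff_X_pow]
    simp
  · have := congrArg (fun q => q.coeff 1) hCa
    rw [hM, coeff_mul_C, FF_coeff1, coeff_add] at this
    rw [← this]
    simp only [coeff_add, coeff_C_mul, coeff_X_pow]
    simp
  · have := congrArg (fun q => q.coeff 2) hCa
    rw [hM, coeff_mul_C, FF_coeff2, coeff_add, one_mul] at this
    rw [← this]
    simp only [coeff_add, coeff_C_mul, coeff_X_pow]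
    simp

omit [IsDomain O] hpf in
lemma coeff_E1 (hp5 : 5 ≤ p) (pb : O) (N1 D1 : O[X]) :
    (C pb * ((X ^ (p - 1) + derivative N1) * (1 + C (p : O) * D1) -
      (X ^ p + C (p : O) * N1) * derivative D1)).coeff (p - 1) =
    pb * (1 + p * (N1.coeff p + D1.coeff 0 + (derivative N1 * D1).coeff (p - 1) -
      (N1 * derivative D1).coeff (p - 1))) := by
  have h1 : (X ^ (p - 1) + derivative N1) * (1 + C (p : O) * D1) -
      (X ^ p + C (p : O) * N1) * derivative D1 =
      X ^ (p - 1) + derivative N1 + C (p : O) * (D1 * X ^ (p - 1)) +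
      C (p : O) * (derivative N1 * D1) - X ^ p * derivative D1 -
      C (p : O) * (N1 * derivative D1) := by ring
  have h2 : ((p - 1 : ℕ) : O) + 1 = p := by
    have : ((p - 1 + 1 : ℕ) : O) = p := by rw [Nat.sub_add_cancel (by omega)]
    rw [← this]; push_cast; ring
  rw [h1, coeff_C_mul, coeff_sub, coeff_sub, coeff_add, coeff_add, coeff_add, coeff_C_mul,
    coeff_C_mul, coeff_C_mul, coeff_X_pow_self, coeff_derivative, coeff_X_pow_mul',
    if_neg (by omega : ¬ p ≤ p - 1), coeff_mul_X_pow', if_pos le_rfl, Nat.sub_self,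
    Nat.sub_add_cancel (by omega : 1 ≤ p), h2]
  ring

omit [IsDomain O] hpf in
lemma coeff_w (hp5 : 5 ≤ p) (N1 D1 : O[X]) :
    (derivative N1 * D1).coeff (p - 1) + (N1 * derivative D1).coeff (p - 1) =
      (N1 * D1).coeff p * p := by
  have h2 : ((p - 1 : ℕ) : O) + 1 = p := by
    have : ((p - 1 + 1 : ℕ) : O) = p := by rw [Nat.sub_add_cancel (by omega)]
    rw [← this]; push_cast; ring
  rw [← coeff_add, ← derivative_mul, coeff_derivative, Nat.sub_add_cancel (by omega : 1 ≤ p), h2]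

omit [IsDomain O] in
lemma L_rel (hp5 : 5 ≤ p) (t : O) (K : O[X])
    (hK : expand O p (FF t) = FF t ^ p + C (p : O) * K) (j : ℕ) :
    (p : O) * (Ca p (FF t ^ ((p - 1) / 2) * K)).coeff j +
      (FF t ^ ((3 * p - 1) / 2)).coeff (p * j + (p - 1)) =
      (FF t).coeff j * (FF t ^ ((p - 1) / 2)).coeff (p - 1) := by
  have hp0 : 0 < p := by omega
  have hodd : p % 2 = 1 := (hpf.out.eq_two_or_odd).resolve_left (by omega)
  have hpw : FF t ^ ((3 * p - 1) / 2) = FF t ^ ((p - 1) / 2) * FF t ^ p := by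
    rw [← pow_add]; congr 1; omega
  have h1 : C (p : O) * (FF t ^ ((p - 1) / 2) * K) + FF t ^ ((3 * p - 1) / 2) =
      expand O p (FF t) * FF t ^ ((p - 1) / 2) := by
    rw [hpw, hK]; ring
  have h2 : Ca p (FF t ^ ((p - 1) / 2)) = C ((FF t ^ ((p - 1) / 2)).coeff (p - 1)) := by
    ext j
    rw [Ca_coeff hp0, coeff_C]
    rcases j with _ | j
    · simp
    · rw [if_neg (by omega)]
      apply coeff_eq_zero_of_natDegree_lt
      have h3 := FF_pow_natDegree_le t ((p - 1) / 2)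
      have h4 : p * 1 ≤ p * (j + 1) := Nat.mul_le_mul_left p (by omega)
      omega
  have h3 := congrArg (fun u => (Ca p u).coeff j) h1
  simp only [Ca_add hp0, Ca_C_mul hp0, Ca_expand_mul hp0, h2, coeff_add, coeff_C_mul,
    coeff_mul_C] at h3
  rw [Ca_coeff hp0 (FF t ^ ((3 * p - 1) / 2))] at h3
  exact h3

/-- Parts (3) and (4): from the two equations for the reduction of the endomorphism `pi` and the
binomial congruences, `pb = ± A` modulo `p^2`. -/
theorem alg (hp5 : 5 ≤ p) (r : O →+* ZMod p) (hr : ∀ x, r x = 0 ↔ (p : O) ∣ x)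
    (hp0 : (p : O) ≠ 0) (t pi pb A : O) (ht : r t ≠ 0) (hpb : r pb ≠ 0) (hpp : pi * pb = p)
    (N1 D1 V : O[X]) (hN1 : N1.natDegree ≤ p) (hD1 : D1.natDegree < p)
    (E1 : derivative (X ^ p + C (p : O) * N1) * (1 + C (p : O) * D1) -
      (X ^ p + C (p : O) * N1) * derivative (1 + C (p : O) * D1) = C pi * V)
    (E2 : FF t * V ^ 2 = (1 + C (p : O) * D1) * (4 * (X ^ p + C (p : O) * N1) ^ 3 +
      (1 + C (p : O) * D1) * ((X ^ p + C (p : O) * N1) + C t * (1 + C (p : O) * D1)) ^ 2))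
    (B1 : (p : O) ^ 2 ∣ 4 * (FF t ^ ((3 * p - 1) / 2)).coeff (p - 1) -
      t ^ (2 * p) * (FF t ^ ((3 * p - 1) / 2)).coeff (4 * p - 1))
    (B2 : (p : O) ^ 2 ∣ 4 * (FF t ^ ((3 * p - 1) / 2)).coeff (2 * p - 1) -
      t ^ p * (4 * (FF t ^ ((3 * p - 1) / 2)).coeff (3 * p - 1) +
        (FF t ^ ((3 * p - 1) / 2)).coeff (4 * p - 1)))
    (B3 : (p : O) ^ 2 ∣ 2 * A - 3 * (FF t ^ ((p - 1) / 2)).coeff (p - 1) +
      (FF t ^ ((3 * p - 1) / 2)).coeff (3 * p - 1)) :
    ∃ ε : O, (ε = 1 ∨ ε = -1) ∧ (p : O) ^ 2 ∣ pb - ε * A := by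
  have hpN : 0 < p := by omega
  have hrp : r (p : O) = 0 := (hr _).2 dvd_rfl
  obtain ⟨ε, hε, V1, hV⟩ := sign_exists hp5 r hr t ht N1 D1 V E2
  have hε2 : ε ^ 2 = 1 := by rcases hε with h | h <;> rw [h] <;> norm_num
  obtain ⟨K, hK⟩ := K_exists r hr t
  have hVE := E1' hp0 pi pb hpp N1 D1 V E1
  obtain ⟨Z, hZ⟩ := E2_expand hp0 hp5 t ε hε2 N1 D1 V1 K hK (by rw [← hV]; exact E2)
  refine ⟨ε, hε, ?_⟩
  -- degrees
  have hKd : K.natDegree ≤ 3 * p := by
    rw [← natDegree_C_mul (a := (p : O)) hp0]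
    have : C (p : O) * K = expand O p (FF t) - FF t ^ p := by rw [hK]; ring
    rw [this]
    refine (natDegree_sub_le _ _).trans (max_le ?_ (FF_pow_natDegree_le t p))
    rw [natDegree_expand]
    exact Nat.mul_le_mul_right p (FF_natDegree_le t)
  -- mod p
  have hG : C (r ε) * (FF (r t)) ^ ((p - 1) / 2) =
      C (r pb) * (X ^ (p - 1) + derivative (N1.map r) - X ^ p * derivative (D1.map r)) := by
    have h1 := congrArg (Polynomial.map r) hV
    have h2 := congrArg (Polynomial.map r) hVE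
    rw [h1] at h2
    simp only [Polynomial.map_mul, Polynomial.map_pow, Polynomial.map_add, Polynomial.map_sub,
      map_C, Polynomial.map_one, map_X, hrp, C_0, zero_mul, add_zero, FF_map, mul_one,
      ← derivative_map] at h2
    exact h2
  have hE : K.map r + (12 * (X ^ p) ^ 2 + 2 * (X ^ p + C (r t))) *
      (N1.map r - X ^ p * D1.map r) +
      4 * D1.map r * expand (ZMod p) p (FF (r t)) =
      2 * C (r ε) * FF (r t) * (FF (r t)) ^ ((p - 1) / 2) * V1.map r := by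
    have h1 := congrArg (Polynomial.map r) hZ
    simp only [Polynomial.map_mul, Polynomial.map_pow, Polynomial.map_add, Polynomial.map_sub,
      map_C, Polynomial.map_one, map_X, hrp, C_0, zero_mul, add_zero, FF_map,
      Polynomial.map_ofNat, map_expand] at h1
    exact h1
  have he2 : (r ε) ^ 2 = 1 := by rw [← map_pow, hε2, map_one]
  obtain ⟨hH, μ, hμ, e0, e1, e2⟩ := main_k hp5 (r t) (r ε) (r pb) ht he2 (N1.map r) (D1.map r)
    (V1.map r) (K.map r) (natDegree_map_le.trans hN1) (natDegree_map_le.trans_lt hD1)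
    (natDegree_map_le.trans hKd) hG hE
  have hmapL : ∀ j, (Ca p ((FF (r t)) ^ ((p - 1) / 2) * K.map r)).coeff j =
      r ((Ca p (FF t ^ ((p - 1) / 2) * K)).coeff j) := by
    intro j
    rw [← coeff_map, Ca_map hpN, Polynomial.map_mul, Polynomial.map_pow, FF_map]
  have hmapH : ((FF (r t)) ^ ((p - 1) / 2)).coeff (p - 1) =
      r ((FF t ^ ((p - 1) / 2)).coeff (p - 1)) := by
    rw [← coeff_map, Polynomial.map_pow, FF_map]
  rw [hmapL] at e0 e1 e2
  rw [hmapH] at hH
  rw [derivative_map, ← Polynomial.map_mul] at hμ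
  simp only [coeff_map] at hμ e0 e1 e2
  -- relations in O
  have hL0 := L_rel hp5 t K hK 0
  have hL1 := L_rel hp5 t K hK 1
  have hL2 := L_rel hp5 t K hK 2
  have hL3 := L_rel hp5 t K hK 3
  rw [FF_coeff0, show p * 0 + (p - 1) = p - 1 by omega] at hL0
  rw [FF_coeff1, show p * 1 + (p - 1) = 2 * p - 1 by omega] at hL1
  rw [FF_coeff2, show p * 2 + (p - 1) = 3 * p - 1 by omega] at hL2
  rw [FF_coeff3, show p * 3 + (p - 1) = 4 * p - 1 by omega] at hL3
  have hcV : ε * (FF t ^ ((p - 1) / 2)).coeff (p - 1) + p * V1.coeff (p - 1) =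
      pb * (1 + p * (N1.coeff p + D1.coeff 0 + (derivative N1 * D1).coeff (p - 1) -
      (N1 * derivative D1).coeff (p - 1))) := by
    rw [← coeff_E1 hp5, ← hVE, hV, coeff_add, coeff_C_mul, coeff_C_mul]
  have hw := coeff_w hp5 N1 D1
  obtain ⟨a, ha⟩ := B1
  obtain ⟨b, hb⟩ := B2
  obtain ⟨α, hα⟩ := B3
  obtain ⟨τ, hτ⟩ : (p : O) ∣ t - t ^ p := by
    rw [← hr, map_sub, map_pow, ZMod.pow_card, sub_self]
  have ht2 : t ^ (2 * p) = (t ^ p) ^ 2 := by rw [← pow_mul, mul_comm]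
  rw [ht2] at ha
  generalize (FF t ^ ((p - 1) / 2)).coeff (p - 1) = h0 at *
  generalize (FF t ^ ((3 * p - 1) / 2)).coeff (p - 1) = g0 at *
  generalize (FF t ^ ((3 * p - 1) / 2)).coeff (2 * p - 1) = g1 at *
  generalize (FF t ^ ((3 * p - 1) / 2)).coeff (3 * p - 1) = g2 at *
  generalize (FF t ^ ((3 * p - 1) / 2)).coeff (4 * p - 1) = g3 at *
  generalize (Ca p (FF t ^ ((p - 1) / 2) * K)).coeff 0 = L0 at *
  generalize (Ca p (FF t ^ ((p - 1) / 2) * K)).coeff 1 = L1 at *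
  generalize (Ca p (FF t ^ ((p - 1) / 2) * K)).coeff 2 = L2 at *
  generalize (Ca p (FF t ^ ((p - 1) / 2) * K)).coeff 3 = L3 at *
  generalize (derivative N1 * D1).coeff (p - 1) = w at *
  generalize (N1 * derivative D1).coeff (p - 1) = w' at *
  generalize (N1 * D1).coeff p = c at *
  generalize V1.coeff (p - 1) = v at *
  generalize N1.coeff 0 = s0 at *
  generalize N1.coeff p = n at *
  generalize D1.coeff 0 = d at *
  generalize t ^ p = T at *
  have hk : 4 * (L0 - t * L1 + t ^ 2 * L2) = τ * (T * g3 - 4 * t * g2) - p * (a - t * b) := by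
    apply mul_left_cancel₀ hp0
    linear_combination 4 * hL0 - 4 * t * hL1 + 4 * t ^ 2 * hL2 - ha + t * hb +
      (T * g3 - 4 * t * g2) * hτ
  have hk2 : T * g3 - 4 * t * g2 = p * (4 * t * L2 - t * L3 - τ * g3) := by
    linear_combination t * hL3 - 4 * t * hL2 - g3 * hτ
  have hl : r L0 - r t * r L1 + r t ^ 2 * r L2 = 0 := by
    have h1 := congrArg r hk
    rw [hk2] at h1
    simp only [map_mul, map_sub, map_add, map_pow, hrp, zero_mul, mul_zero, sub_zero] at h1
    rw [map_ofNat] at h1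
    exact (mul_eq_zero.1 h1).resolve_left (four_ne hp5)
  have he0 : r ε ≠ 0 := by
    intro h; rw [h] at he2; norm_num at he2
  have h12 : (12 : ZMod p) ≠ 0 := by
    intro h
    have : ((12 : ℕ) : ZMod p) = 0 := by exact_mod_cast h
    rw [ZMod.natCast_eq_zero_iff] at this
    have h3 : (12 : ℕ) = 2 ^ 2 * 3 := by norm_num
    rw [h3, hpf.out.dvd_mul] at this
    rcases this with h | h
    · have := Nat.le_of_dvd (by norm_num) (hpf.out.dvd_of_dvd_pow h); omega
    · have := Nat.le_of_dvd (by norm_num) h; omega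
  have hs0 : r s0 = 0 := by
    have h1 : (12 : ZMod p) * (r t ^ 2 * (r ε * (r pb * r s0))) = 0 := by
      linear_combination (-1 : ZMod p) * hl + e0 - r t * e1 + r t ^ 2 * e2
    have h2 := (mul_eq_zero.1 h1).resolve_left h12
    have h3 := (mul_eq_zero.1 h2).resolve_left (pow_ne_zero 2 ht)
    have h4 := (mul_eq_zero.1 h3).resolve_left he0
    exact (mul_eq_zero.1 h4).resolve_left hpb
  have hw' : r w' = - r w := by
    have := congrArg r hw
    simp only [map_add, map_mul, hrp, mul_zero] at this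
    linear_combination this
  have hY : r (2 * v - 2 * pb * (n + d + w - w') - ε * L2 - p * (ε * α)) = 0 := by
    simp only [map_sub, map_add, map_mul, hrp, zero_mul, sub_zero, map_ofNat, hw']
    rw [hs0] at e2
    linear_combination (-(r ε)) * e2 - r ε * hμ + (-2 * r v + 2 * r pb * (r n + r d + 2 * r w)) * he2
  obtain ⟨y, hy⟩ := (hr _).1 hY
  have hfin : 2 * (pb - ε * A) = (p : O) ^ 2 * y := by
    linear_combination (p : O) * hy - 2 * hcV - ε * hα + ε * hL2
  have hcop : IsCoprime ((p : O) ^ 2) 2 := by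
    have hodd : p = 2 * ((p - 1) / 2) + 1 := by
      have h1 : p % 2 = 1 := (hpf.out.eq_two_or_odd).resolve_left (by omega)
      omega
    apply IsCoprime.pow_left
    refine ⟨1, -(((p - 1) / 2 : ℕ) : O), ?_⟩
    have : (p : O) = 2 * (((p - 1) / 2 : ℕ) : O) + 1 := by
      conv_lhs => rw [hodd]
      push_cast; ring
    rw [this]; ring
  exact hcop.dvd_of_dvd_mul_left ⟨y, hfin⟩

end main

end Pool.Agent.D8ed36Alg

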