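import Pool.Agent.Lib_d8ed36.PLevel2
import Mathlib.FieldTheory.Finite.Basic
import Mathlib.NumberTheory.Bernoulli
import Mathlib.Tactic

set_option autoImplicit false
set_option linter.unusedSectionVars false

namespace Pool.Agent.Lib_d8ed36

open Finset

lemma D.of_dvd {p : ℕ} (hp : p.Prime) {z : ℤ} (h : (p : ℤ) ∣ z) : D p 1 (z : ℚ) := by
  obtain ⟨c, rfl⟩ := h
  push_cast
  exact D.mul0 hp (D.ppow' hp) (D.int hp c)

lemma fermat_D {p : ℕ} (hp : p.Prime) (i : ℕ) (hi : ¬ p ∣ i) : D p 1 ((i : ℚ) ^ (p - 1) - 1) := by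
  have h1 : IsCoprime (i : ℤ) (p : ℤ) :=
    Nat.isCoprime_iff_coprime.mpr ((Nat.Prime.coprime_iff_not_dvd hp).mpr hi).symm
  have h2 := Int.ModEq.pow_card_sub_one_eq_one hp h1
  have h3 : (p : ℤ) ∣ (i : ℤ) ^ (p - 1) - 1 := (Int.modEq_iff_dvd.mp h2.symm)
  have := D.of_dvd hp h3
  push_cast at this
  exact this

lemma power_sum_zmod {p : ℕ} (l : ℕ) [Fact p.Prime] :
    (∑ v ∈ Ico 1 p, (v : ZMod p) ^ l) = - (if (p - 1) ∣ l then (1 : ZMod p) else 0) := by
  have hbij : (∑ v ∈ Ico 1 p, (v : ZMod p) ^ l) = ∑ u : (ZMod p)ˣ, (u : ZMod p) ^ l :=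
    Finset.sum_bij'
      (fun v hv ↦ Units.mk0 (v : ZMod p) (mt (ZMod.natCast_eq_zero_iff v p).mp (by
        have := Finset.mem_Ico.mp hv
        intro h
        have := Nat.le_of_dvd (by omega) h
        omega)))
      (fun u _ ↦ (u : ZMod p).val)
      (fun _ _ ↦ Finset.mem_univ _)
      (fun u _ ↦ by
        have h1 := ZMod.val_lt (u : ZMod p)
        have h2 : (u : ZMod p).val ≠ 0 := by
          rw [ZMod.val_ne_zero]; exact u.ne_zero
        rw [Finset.mem_Ico]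
        omega)
      (fun v hv ↦ by simp [ZMod.val_cast_of_lt (Finset.mem_Ico.mp hv).2])
      (fun u _ ↦ Units.ext (ZMod.natCast_zmod_val _))
      (fun _ _ ↦ rfl)
  rw [hbij, FiniteField.sum_pow_units, ZMod.card]
  split_ifs <;> simp

section

variable {p : ℕ} (hp : p.Prime) {M : ℕ} (hpM : p = 2 * M + 1)

include hp hpM

lemma power_sum_eq (m : ℕ) :
    D p 1 (∑ k ∈ range (2 * M), ((k : ℚ) + 1) ^ m + (if (2 * M) ∣ m then (1 : ℚ) else 0)) := by
  haveI : Fact p.Prime := ⟨hp⟩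
  have h1 := power_sum_zmod (p := p) m
  have hp1 : p - 1 = 2 * M := by omega
  rw [hp1] at h1
  have h2 : ((∑ v ∈ Ico 1 p, (v : ℤ) ^ m + (if (2 * M) ∣ m then (1 : ℤ) else 0) : ℤ) : ZMod p)
      = 0 := by
    push_cast
    rw [h1]
    split_ifs <;> simp
  have h3 : (p : ℤ) ∣ (∑ v ∈ Ico 1 p, (v : ℤ) ^ m + (if (2 * M) ∣ m then (1 : ℤ) else 0)) :=
    (ZMod.intCast_zmod_eq_zero_iff_dvd _ _).mp h2
  have h4 := D.of_dvd hp h3
  push_cast at h4
  have h5 : ∑ v ∈ Ico 1 p, (v : ℚ) ^ m = ∑ k ∈ range (2 * M), ((k : ℚ) + 1) ^ m := by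
    rw [Finset.sum_Ico_eq_sum_range, hp1]
    refine Finset.sum_congr rfl (fun k _ => ?_)
    push_cast
    rw [add_comm]
  rw [h5] at h4
  exact h4

lemma bernoulli_D (r : ℕ) (hr : r < 2 * M) : D p 0 (bernoulli r) := by
  induction r using Nat.strong_induction_on with
  | _ r ih =>
    have h1 := sum_bernoulli (r + 1)
    rw [Finset.sum_range_succ] at h1
    have hr1 : (r : ℚ) + 1 ≠ 0 := by positivity
    have h2 : bernoulli r = ((if r + 1 = 1 then (1 : ℚ) else 0)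
        - ∑ k ∈ range r, (((r + 1).choose k : ℕ) : ℚ) * bernoulli k) / ((r + 1 : ℕ) : ℚ) := by
      rw [← h1]
      rw [Nat.choose_succ_self_right]
      push_cast
      field_simp
      ring
    rw [h2]
    refine D.div_nat ?_ hp ?_
    · refine D.sub hp ?_ (D.sum hp _ _ (fun k hk => ?_))
      · split_ifs
        · exact D.one hp
        · exact D.zero' hp 0
      · have hk' := Finset.mem_range.mp hk
        exact D.mul0' hp (D.nat hp _) (ih k hk' (by omega))
    · intro h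
      have := Nat.le_of_dvd (by omega) h
      omega

lemma inv1_D (i : ℕ) (hi : i < 2 * M) :
    D p 1 (1 / ((i : ℚ) + 1) - ((i : ℚ) + 1) ^ (2 * M - 1)) := by
  have hnd : ¬ p ∣ (i + 1) := by
    intro h
    have := Nat.le_of_dvd (by omega) h
    omega
  have h1 := fermat_D hp (i + 1) hnd
  rw [show p - 1 = (2 * M - 1) + 1 by omega] at h1
  push_cast at h1
  have h5 : (i : ℚ) + 1 ≠ 0 := by positivity
  have e : 1 / ((i : ℚ) + 1) - ((i : ℚ) + 1) ^ (2 * M - 1)
      = -(((i : ℚ) + 1) ^ ((2 * M - 1) + 1) - 1) * (1 / ((i : ℚ) + 1)) := by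
    rw [pow_succ]
    field_simp
    ring
  rw [e]
  exact D.mul0 hp h1.neg (Dinv1 hp hpM i hi)

lemma inv2_D (hM : 2 ≤ M) (i : ℕ) (hi : i < 2 * M) :
    D p 1 (1 / ((i : ℚ) + 1) ^ 2 - ((i : ℚ) + 1) ^ (2 * M - 2)) := by
  have hnd : ¬ p ∣ (i + 1) := by
    intro h
    have := Nat.le_of_dvd (by omega) h
    omega
  have h1 := fermat_D hp (i + 1) hnd
  rw [show p - 1 = (2 * M - 2) + 2 by omega] at h1
  push_cast at h1
  have h5 : (i : ℚ) + 1 ≠ 0 := by positivity
  have e : 1 / ((i : ℚ) + 1) ^ 2 - ((i : ℚ) + 1) ^ (2 * M - 2)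
      = -(((i : ℚ) + 1) ^ ((2 * M - 2) + 2) - 1) * (1 / ((i : ℚ) + 1) ^ 2) := by
    rw [pow_add]
    field_simp
    ring
  rw [e]
  exact D.mul0 hp h1.neg (Dinvr hp hpM 2 i hi)

/-- `Z ≡ B_{p-3} (mod p)` -/
lemma Z_bern (hM : 2 ≤ M) : D p 1 (Zs M - bernoulli (2 * M - 2)) := by
  -- step 1: replace inverses by powers
  set S : ℚ := ∑ k ∈ range (2 * M), ((k : ℚ) + 1) ^ (2 * M - 2)
    * ∑ i ∈ range (k + 1), (i : ℚ) ^ (2 * M - 1) with hS
  have h1 : D p 1 (Zs M - S) := by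
    rw [hS, Zs, ← Finset.sum_sub_distrib]
    refine D.sum hp _ _ (fun k hk => ?_)
    have hk' := Finset.mem_range.mp hk
    have e1 : ∑ i ∈ range (k + 1), (i : ℚ) ^ (2 * M - 1)
        = ∑ i ∈ range k, ((i : ℚ) + 1) ^ (2 * M - 1) := by
      rw [Finset.sum_range_succ']
      have : (((0 : ℕ) : ℚ)) ^ (2 * M - 1) = 0 := by
        rw [Nat.cast_zero, zero_pow (by omega)]
      rw [this, add_zero]
      exact Finset.sum_congr rfl (fun i _ => by push_cast; rfl)
    rw [e1]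
    have e2 : D p 1 (Hr 1 k - ∑ i ∈ range k, ((i : ℚ) + 1) ^ (2 * M - 1)) := by
      unfold Hr
      rw [← Finset.sum_sub_distrib]
      refine D.sum hp _ _ (fun i hi => ?_)
      have hi' := Finset.mem_range.mp hi
      have := inv1_D hp hpM i (by omega)
      rwa [pow_one]
    have e3 := inv2_D hp hpM hM k hk'
    have e4 : Hr 1 k / ((k : ℚ) + 1) ^ 2
        - ((k : ℚ) + 1) ^ (2 * M - 2) * ∑ i ∈ range k, ((i : ℚ) + 1) ^ (2 * M - 1)
        = Hr 1 k * (1 / ((k : ℚ) + 1) ^ 2 - ((k : ℚ) + 1) ^ (2 * M - 2))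
          + ((k : ℚ) + 1) ^ (2 * M - 2)
            * (Hr 1 k - ∑ i ∈ range k, ((i : ℚ) + 1) ^ (2 * M - 1)) := by ring
    rw [e4]
    refine D.add hp (D.mul0' hp (Hr_D0 hp hpM 1 k (by omega)) e3) (D.mul0' hp ?_ e2)
    have := (D.nat hp (k + 1)).pow hp (2 * M - 2)
    push_cast at this
    exact this
  -- step 2: Faulhaber
  have h2 : S = ∑ r ∈ range (2 * M), (bernoulli r * (((2 * M).choose r : ℕ) : ℚ) / ((2 * M : ℕ) : ℚ))
      * ∑ k ∈ range (2 * M), ((k : ℚ) + 1) ^ (4 * M - 2 - r) := by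
    rw [hS]
    have e1 : ∀ k ∈ range (2 * M), ((k : ℚ) + 1) ^ (2 * M - 2)
        * ∑ i ∈ range (k + 1), (i : ℚ) ^ (2 * M - 1)
        = ∑ r ∈ range (2 * M), (bernoulli r * (((2 * M).choose r : ℕ) : ℚ) / ((2 * M : ℕ) : ℚ))
          * ((k : ℚ) + 1) ^ (4 * M - 2 - r) := by
      intro k _
      rw [sum_range_pow, show 2 * M - 1 + 1 = 2 * M by omega, Finset.mul_sum]
      refine Finset.sum_congr rfl (fun r hr => ?_)
      have hr' := Finset.mem_range.mp hr
      have e2 : (((2 * M - 1 : ℕ) : ℚ) + 1) = ((2 * M : ℕ) : ℚ) := by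
        rw [show 2 * M = (2 * M - 1) + 1 by omega]; push_cast; simp
      rw [e2, show 4 * M - 2 - r = (2 * M - 2) + (2 * M - r) by omega, pow_add]
      push_cast
      ring
    rw [Finset.sum_congr rfl e1, Finset.sum_comm]
    exact Finset.sum_congr rfl (fun r _ => by rw [Finset.mul_sum])
  -- step 3: evaluate
  set c : ℕ → ℚ := fun r => bernoulli r * (((2 * M).choose r : ℕ) : ℚ) / ((2 * M : ℕ) : ℚ) with hc
  have hcD : ∀ r ∈ range (2 * M), D p 0 (c r) := by
    intro r hr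
    have hr' := Finset.mem_range.mp hr
    refine D.div_nat (D.mul0 hp (bernoulli_D hp hpM r hr') (D.nat hp _)) hp ?_
    intro h
    have := Nat.le_of_dvd (by omega) h
    omega
  have h3 : D p 1 (S + c (2 * M - 2)) := by
    rw [h2]
    have hmem : 2 * M - 2 ∈ range (2 * M) := Finset.mem_range.mpr (by omega)
    rw [← Finset.add_sum_erase _ _ hmem]
    have e1 : 4 * M - 2 - (2 * M - 2) = 2 * M := by omega
    rw [e1]
    have e2 := power_sum_eq hp hpM (2 * M)
    rw [if_pos (dvd_refl _)] at e2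
    have e3 : D p 1 (∑ x ∈ (range (2 * M)).erase (2 * M - 2),
        c x * ∑ k ∈ range (2 * M), ((k : ℚ) + 1) ^ (4 * M - 2 - x)) := by
      refine D.sum hp _ _ (fun r hr => ?_)
      have hr2 := Finset.mem_erase.mp hr
      have hr' := Finset.mem_range.mp hr2.2
      have e4 := power_sum_eq hp hpM (4 * M - 2 - r)
      rw [if_neg, add_zero] at e4
      · exact D.mul0' hp (hcD r hr2.2) e4
      · rintro ⟨q, hq⟩
        have hq1 : q = 1 := by
          have hlt : 2 * M * q < 2 * M * 2 := by omega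
          have hlt2 : q < 2 := lt_of_mul_lt_mul_left hlt (Nat.zero_le _)
          have hq0 : q ≠ 0 := by
            intro h0
            rw [h0] at hq
            omega
          omega
        rw [hq1] at hq
        exact hr2.1 (by omega)
    have e5 : c (2 * M - 2) * ∑ k ∈ range (2 * M), ((k : ℚ) + 1) ^ (2 * M)
        + ∑ x ∈ (range (2 * M)).erase (2 * M - 2),
          c x * ∑ k ∈ range (2 * M), ((k : ℚ) + 1) ^ (4 * M - 2 - x) + c (2 * M - 2)
        = c (2 * M - 2) * (∑ k ∈ range (2 * M), ((k : ℚ) + 1) ^ (2 * M) + 1)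
          + ∑ x ∈ (range (2 * M)).erase (2 * M - 2),
          c x * ∑ k ∈ range (2 * M), ((k : ℚ) + 1) ^ (4 * M - 2 - x) := by ring
    show D p 1 (c (2 * M - 2) * ∑ k ∈ range (2 * M), ((k : ℚ) + 1) ^ (2 * M)
        + ∑ x ∈ (range (2 * M)).erase (2 * M - 2),
          c x * ∑ k ∈ range (2 * M), ((k : ℚ) + 1) ^ (4 * M - 2 - x) + c (2 * M - 2))
    rw [e5]
    exact D.add hp (D.mul0' hp (hcD _ hmem) e2) e3
  -- step 4
  have h4 : D p 1 (-c (2 * M - 2) - bernoulli (2 * M - 2)) := by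
    apply D_unit2 hp hpM
    have e1 : (((2 * M).choose (2 * M - 2) : ℕ) : ℚ) = (2 * (M : ℚ)) * (2 * M - 1) / 2 := by
      rw [Nat.choose_symm (by omega : 2 ≤ 2 * M), Nat.cast_choose_two]
      push_cast
      ring
    have hM0 : (M : ℚ) ≠ 0 := by
      have : M ≠ 0 := by omega
      exact_mod_cast this
    have e2 : 2 * (-c (2 * M - 2) - bernoulli (2 * M - 2))
        = (p : ℚ) * (-bernoulli (2 * M - 2)) := by
      simp only [hc]
      rw [e1, castp hpM]
      push_cast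
      field_simp
      ring
    rw [e2]
    exact D.mul0 hp (D.ppow' hp) (bernoulli_D hp hpM _ (by omega)).neg
  have e : Zs M - bernoulli (2 * M - 2) = (Zs M - S) + (S + c (2 * M - 2))
      + (-c (2 * M - 2) - bernoulli (2 * M - 2)) := by ring
  rw [e]
  exact D.add hp (D.add hp h1 h3) h4

end

end Pool.Agent.Lib_d8ed36
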