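import Mathlib.Tactic
import Mathlib.Data.Nat.Choose.Sum
import Mathlib.Data.Nat.Choose.Central
import Mathlib.Algebra.BigOperators.Intervals
import Mathlib.Data.Rat.Defs

set_option autoImplicit false

namespace Pool.Agent.Lib_d8ed36

open Finset

/-- the summand `C(n,k)^2 / ((2k+1) C(n+1+k,k))` -/
def sA (n k : ℕ) : ℚ :=
  ((n.choose k : ℕ) : ℚ) ^ 2 / ((2 * (k : ℚ) + 1) * (((n + 1 + k).choose k : ℕ) : ℚ))

def AA (n : ℕ) : ℚ := ∑ k ∈ range (n + 1), sA n k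

lemma ch1 (n k : ℕ) : ((n.choose k : ℕ) : ℚ) * ((n : ℚ) + 1)
    = (((n + 1).choose k : ℕ) : ℚ) * ((n : ℚ) + 1 - k) := by
  rcases Nat.lt_or_ge (n + 1) k with h | h
  · rw [Nat.choose_eq_zero_of_lt h, Nat.choose_eq_zero_of_lt (by omega : n < k)]; simp
  · have := Nat.choose_mul_succ_eq n k
    have h2 : ((n.choose k * (n + 1) : ℕ) : ℚ) = (((n + 1).choose k * (n + 1 - k) : ℕ) : ℚ) := by
      rw [this]
    rw [Nat.cast_mul, Nat.cast_mul, Nat.cast_sub h] at h2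
    push_cast at h2
    exact h2

lemma ch2 (n k : ℕ) : (((n.choose (k + 1)) : ℕ) : ℚ) * ((k : ℚ) + 1)
    = ((n.choose k : ℕ) : ℚ) * ((n : ℚ) - k) := by
  rcases Nat.lt_or_ge n k with h | h
  · rw [Nat.choose_eq_zero_of_lt h, Nat.choose_eq_zero_of_lt (by omega : n < k + 1)]; simp
  · have := Nat.choose_succ_right_eq n k
    have h2 : ((n.choose (k + 1) * (k + 1) : ℕ) : ℚ) = ((n.choose k * (n - k) : ℕ) : ℚ) := by
      rw [this]
    rw [Nat.cast_mul, Nat.cast_mul, Nat.cast_sub h] at h2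
    push_cast at h2
    exact h2

lemma ch3 (m k : ℕ) : (((m + 1 + k).choose k : ℕ) : ℚ) * ((m : ℚ) + 1)
    = (((m + k).choose k : ℕ) : ℚ) * ((m : ℚ) + 1 + k) := by
  have := ch1 (m + k) k
  push_cast at this
  rw [show m + 1 + k = m + k + 1 by ring]
  linear_combination -this

lemma ch4 (m k : ℕ) : (((m + (k + 1)).choose (k + 1) : ℕ) : ℚ) * ((k : ℚ) + 1)
    = (((m + k).choose k : ℕ) : ℚ) * ((m : ℚ) + 1 + k) := by
  have := Nat.add_one_mul_choose_eq (m + k) k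
  have h2 : (((m + k + 1) * (m + k).choose k : ℕ) : ℚ)
      = (((m + k + 1).choose (k + 1) * (k + 1) : ℕ) : ℚ) := by rw [this]
  push_cast at h2
  rw [show m + (k + 1) = m + k + 1 by ring]
  linear_combination -h2

lemma choose_pos' (m k : ℕ) : (((m + k).choose k : ℕ) : ℚ) ≠ 0 := by
  have : 0 < (m + k).choose k := Nat.choose_pos (by omega)
  positivity

/-- certificate polynomial -/
def ZZ (N k : ℚ) : ℚ :=
  -(5*N + 189/2*N^2 + 1339/2*N^3 + 4615/2*N^4 + 8559/2*N^5 + 4356*N^6 + 2288*N^7 + 484*N^8)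
  - (56 + 610*N + 2789*N^2 + 6931*N^3 + 10095*N^4 + 8595*N^5 + 3944*N^6 + 748*N^7) * k
  + (56 + 513*N + 3747/2*N^2 + 7181/2*N^3 + 3936*N^4 + 2390*N^5 + 616*N^6) * k^2
  + (56 + 492*N + 1682*N^2 + 2781*N^3 + 2204*N^4 + 660*N^5) * k^3
  - (56 + 408*N + 1042*N^2 + 1098*N^3 + 396*N^4) * k^4

def GG (n k : ℕ) : ℚ :=
  (k : ℚ) * ZZ ((n : ℚ) + 1) k * (((n + 2).choose k : ℕ) : ℚ) ^ 2
    / (4 * ((n : ℚ) + 1) * ((n : ℚ) + 2) ^ 3 * (((n + 2 + k).choose k : ℕ) : ℚ))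

def lam1 (N : ℚ) : ℚ := (2 * N + 1) ^ 3 / (8 * (N + 1))
def lam2 (N : ℚ) : ℚ := (2 * N + 1) ^ 3 * (2 * N + 3) ^ 3 / (64 * (N + 1) ^ 3 * (N + 2))

lemma cert (n k : ℕ) :
    32 * ((n : ℚ) + 2) ^ 3 * (11 * ((n : ℚ) + 1) + 3) *
      (lam2 ((n : ℚ) + 1) * sA (n + 2) k - lam1 ((n : ℚ) + 1) * sA (n + 1) k)
    - 3 * (11 * ((n : ℚ) + 1) + 14) * (2 * ((n : ℚ) + 1) + 1) * (3 * ((n : ℚ) + 1) + 1)
      * (3 * ((n : ℚ) + 1) + 2) *
      (lam1 ((n : ℚ) + 1) * sA (n + 1) k - ((n : ℚ) + 1) ^ 2 * sA n k)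
    = GG n (k + 1) - GG n k := by
  have hn1 : (n : ℚ) + 1 ≠ 0 := by positivity
  have hn2 : (n : ℚ) + 2 ≠ 0 := by positivity
  have hn3 : (n : ℚ) + 3 ≠ 0 := by positivity
  have hk1 : (k : ℚ) + 1 ≠ 0 := by positivity
  have h2k : 2 * (k : ℚ) + 1 ≠ 0 := by positivity
  have hnk2 : (n : ℚ) + 2 + k ≠ 0 := by positivity
  have hnk3 : (n : ℚ) + 3 + k ≠ 0 := by positivity
  set X : ℚ := (((n + 2).choose k : ℕ) : ℚ) with hX
  set Dn : ℚ := (((n + 2 + k).choose k : ℕ) : ℚ) with hDn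
  have hD0 : Dn ≠ 0 := choose_pos' (n + 2) k
  -- C(n+1,k)
  have e1 : (((n + 1).choose k : ℕ) : ℚ) = X * ((n : ℚ) + 2 - k) / ((n : ℚ) + 2) := by
    rw [eq_div_iff hn2]
    have := ch1 (n + 1) k
    push_cast at this
    rw [hX]
    linear_combination this
  have e0 : ((n.choose k : ℕ) : ℚ)
      = X * ((n : ℚ) + 2 - k) * ((n : ℚ) + 1 - k) / (((n : ℚ) + 2) * ((n : ℚ) + 1)) := by
    have := ch1 n k
    rw [e1] at this
    field_simp at this ⊢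
    linear_combination this
  -- C(n+3+k,k)
  have d3 : (((n + 2 + 1 + k).choose k : ℕ) : ℚ) = Dn * ((n : ℚ) + 3 + k) / ((n : ℚ) + 3) := by
    rw [eq_div_iff hn3]
    have := ch3 (n + 2) k
    push_cast at this
    rw [hDn]
    linear_combination this
  have d1 : (((n + 1 + k).choose k : ℕ) : ℚ) = Dn * ((n : ℚ) + 2) / ((n : ℚ) + 2 + k) := by
    rw [eq_div_iff hnk2]
    have := ch3 (n + 1) k
    push_cast at this
    rw [hDn]
    rw [show n + 2 + k = n + 1 + 1 + k by ring]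
    linear_combination -this
  have x1 : (((n + 2).choose (k + 1) : ℕ) : ℚ) = X * ((n : ℚ) + 2 - k) / ((k : ℚ) + 1) := by
    rw [eq_div_iff hk1]
    have := ch2 (n + 2) k
    push_cast at this
    rw [hX]
    linear_combination this
  have d4 : (((n + 2 + (k + 1)).choose (k + 1) : ℕ) : ℚ)
      = Dn * ((n : ℚ) + 3 + k) / ((k : ℚ) + 1) := by
    rw [eq_div_iff hk1]
    have := ch4 (n + 2) k
    push_cast at this
    rw [hDn]
    linear_combination this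
  have s2 : sA (n + 2) k = X ^ 2 * ((n : ℚ) + 3) / ((2 * (k : ℚ) + 1) * (Dn * ((n : ℚ) + 3 + k))) := by
    unfold sA
    rw [d3, ← hX]
    field_simp
  have s1 : sA (n + 1) k = (X * ((n : ℚ) + 2 - k)) ^ 2
      / (((n : ℚ) + 2) ^ 2 * (2 * (k : ℚ) + 1) * Dn) := by
    unfold sA
    rw [show n + 1 + 1 + k = n + 2 + k by ring, ← hDn, e1]
    field_simp
  have s0 : sA n k = (X * ((n : ℚ) + 2 - k) * ((n : ℚ) + 1 - k)) ^ 2 * ((n : ℚ) + 2 + k)
      / (((n : ℚ) + 2) ^ 3 * ((n : ℚ) + 1) ^ 2 * (2 * (k : ℚ) + 1) * Dn) := by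
    unfold sA
    rw [d1, e0]
    field_simp
  have g1 : GG n (k + 1) = ZZ ((n : ℚ) + 1) ((k : ℚ) + 1) * (X * ((n : ℚ) + 2 - k)) ^ 2
      / (4 * ((n : ℚ) + 1) * ((n : ℚ) + 2) ^ 3 * Dn * ((n : ℚ) + 3 + k)) := by
    unfold GG
    rw [x1, d4]
    push_cast
    field_simp
  have g0 : GG n k = (k : ℚ) * ZZ ((n : ℚ) + 1) k * X ^ 2
      / (4 * ((n : ℚ) + 1) * ((n : ℚ) + 2) ^ 3 * Dn) := by
    unfold GG
    rw [← hX, ← hDn]
  rw [s2, s1, s0, g1, g0]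
  unfold lam1 lam2 ZZ
  have hA : (n : ℚ) + 1 + 1 ≠ 0 := by positivity
  have hB : (n : ℚ) + 1 + 2 ≠ 0 := by positivity
  generalize (k : ℚ) = K at *
  generalize hNN : (n : ℚ) = NN at *
  field_simp
  ring

lemma AA_rec (n : ℕ) :
    32 * ((n : ℚ) + 2) ^ 3 * (11 * ((n : ℚ) + 1) + 3) *
      (lam2 ((n : ℚ) + 1) * AA (n + 2) - lam1 ((n : ℚ) + 1) * AA (n + 1))
    = 3 * (11 * ((n : ℚ) + 1) + 14) * (2 * ((n : ℚ) + 1) + 1) * (3 * ((n : ℚ) + 1) + 1)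
      * (3 * ((n : ℚ) + 1) + 2) *
      (lam1 ((n : ℚ) + 1) * AA (n + 1) - ((n : ℚ) + 1) ^ 2 * AA n) := by
  have h := Finset.sum_congr rfl (fun k (_ : k ∈ range (n + 3)) => cert n k)
  rw [Finset.sum_range_sub (GG n) (n + 3)] at h
  have h0 : GG n 0 = 0 := by simp [GG]
  have h1 : GG n (n + 3) = 0 := by
    unfold GG
    rw [Nat.choose_eq_zero_of_lt (by omega : n + 2 < n + 3)]
    simp
  have a2 : AA (n + 2) = ∑ k ∈ range (n + 3), sA (n + 2) k := rfl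
  have a1 : AA (n + 1) = ∑ k ∈ range (n + 3), sA (n + 1) k := by
    rw [Finset.sum_range_succ, AA]
    have : sA (n + 1) (n + 2) = 0 := by
      unfold sA
      rw [Nat.choose_eq_zero_of_lt (by omega : n + 1 < n + 2)]; simp
    rw [this, add_zero]
  have a0 : AA n = ∑ k ∈ range (n + 3), sA n k := by
    rw [Finset.sum_range_succ, Finset.sum_range_succ, AA]
    have : sA n (n + 2) = 0 := by
      unfold sA
      rw [Nat.choose_eq_zero_of_lt (by omega : n < n + 2)]; simp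
    have h' : sA n (n + 1) = 0 := by
      unfold sA
      rw [Nat.choose_eq_zero_of_lt (by omega : n < n + 1)]; simp
    rw [this, h', add_zero, add_zero]
  rw [h0, h1, sub_zero] at h
  simp only [Finset.sum_sub_distrib, ← Finset.mul_sum] at h
  rw [← a2, ← a1, ← a0] at h
  linear_combination h

/-- `C(2m,m)/4^m` -/
def cc (m : ℕ) : ℚ := (((2 * m).choose m : ℕ) : ℚ) / 4 ^ m

/-- `C(2m,m)^2 C(3m,m)/64^m` -/
def uu (m : ℕ) : ℚ := (((2 * m).choose m : ℕ) : ℚ) ^ 2 * (((3 * m).choose m : ℕ) : ℚ) / 64 ^ m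

lemma central_rec (m : ℕ) : (((2 * (m + 1)).choose (m + 1) : ℕ) : ℚ) * ((m : ℚ) + 1)
    = 2 * (2 * (m : ℚ) + 1) * (((2 * m).choose m : ℕ) : ℚ) := by
  have h := Nat.succ_mul_centralBinom_succ m
  rw [Nat.centralBinom_eq_two_mul_choose, Nat.centralBinom_eq_two_mul_choose] at h
  have h2 : (((m + 1) * (2 * (m + 1)).choose (m + 1) : ℕ) : ℚ)
    = ((2 * (2 * m + 1) * (2 * m).choose m : ℕ) : ℚ) := by rw [h]
  push_cast at h2
  linear_combination h2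

lemma three_rec (m : ℕ) : (((3 * (m + 1)).choose (m + 1) : ℕ) : ℚ)
      * (((m : ℚ) + 1) * (2 * m + 1) * (2 * m + 2))
    = (3 * (m : ℚ) + 1) * (3 * m + 2) * (3 * m + 3) * (((3 * m).choose m : ℕ) : ℚ) := by
  rw [Nat.cast_choose ℚ (by omega : m + 1 ≤ 3 * (m + 1)), Nat.cast_choose ℚ (by omega : m ≤ 3 * m)]
  rw [show 3 * (m + 1) - (m + 1) = 2 * m + 1 + 1 by omega, show 3 * m - m = 2 * m by omega,
    show 3 * (m + 1) = 3 * m + 1 + 1 + 1 by ring]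
  simp only [Nat.factorial_succ]
  push_cast
  have h1 : ((m.factorial : ℕ) : ℚ) ≠ 0 := by exact_mod_cast Nat.factorial_ne_zero m
  have h2 : (((2 * m).factorial : ℕ) : ℚ) ≠ 0 := by exact_mod_cast Nat.factorial_ne_zero _
  field_simp
  ring

lemma cc_rec (m : ℕ) : cc (m + 1) = cc m * (2 * m + 1) / (2 * m + 2) := by
  have hm : (m : ℚ) + 1 ≠ 0 := by positivity
  unfold cc
  have h := central_rec m
  have h' : (((2 * (m + 1)).choose (m + 1) : ℕ) : ℚ)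
      = 2 * (2 * (m : ℚ) + 1) * (((2 * m).choose m : ℕ) : ℚ) / ((m : ℚ) + 1) := by
    rw [eq_div_iff hm]; exact h
  rw [h', pow_succ]
  have : 2 * (m : ℚ) + 2 ≠ 0 := by positivity
  field_simp
  ring

lemma uu_rec (m : ℕ) : uu (m + 1) * (32 * ((m : ℚ) + 1) ^ 3)
    = uu m * (3 * (2 * m + 1) * (3 * m + 1) * (3 * m + 2)) := by
  have hm : (m : ℚ) + 1 ≠ 0 := by positivity
  have hm2 : 2 * (m : ℚ) + 1 ≠ 0 := by positivity
  unfold uu
  have h' : (((2 * (m + 1)).choose (m + 1) : ℕ) : ℚ)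
      = 2 * (2 * (m : ℚ) + 1) * (((2 * m).choose m : ℕ) : ℚ) / ((m : ℚ) + 1) := by
    rw [eq_div_iff hm]; exact central_rec m
  have h3 : (((3 * (m + 1)).choose (m + 1) : ℕ) : ℚ)
      = (3 * (m : ℚ) + 1) * (3 * m + 2) * (3 * m + 3) * (((3 * m).choose m : ℕ) : ℚ)
        / (((m : ℚ) + 1) * (2 * m + 1) * (2 * m + 2)) := by
    rw [eq_div_iff (by positivity)]; exact three_rec m
  rw [h', h3, pow_succ]
  have : 2 * (m : ℚ) + 2 ≠ 0 := by positivity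
  field_simp
  ring

/-- right-hand side of the identity -/
def RR (n : ℕ) : ℚ := 24 * ((n : ℚ) + 1) ^ 2 * cc (n + 1) ^ 3 * AA n

lemma RR_rec (n : ℕ) : RR (n + 1) - RR n = (11 * ((n : ℚ) + 1) + 3) * uu (n + 1) := by
  induction n with
  | zero =>
    norm_num [RR, AA, sA, cc, uu, Finset.sum_range_succ, Nat.choose]
  | succ n ih =>
    have hn1 : (n : ℚ) + 1 ≠ 0 := by positivity
    have hn2 : (n : ℚ) + 2 ≠ 0 := by positivity
    have hn3 : (n : ℚ) + 3 ≠ 0 := by positivity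
    have hr := AA_rec n
    have hu := uu_rec (n + 1)
    have hc1 := cc_rec (n + 1)
    have hc2 := cc_rec (n + 1 + 1)
    unfold RR at ih ⊢
    unfold lam1 lam2 at hr
    push_cast at *
    rw [hc1] at hc2
    rw [hc2]
    rw [hc1] at ih ⊢
    have hK : (32 * ((n : ℚ) + 2) ^ 3 * (11 * ((n : ℚ) + 1) + 3)) ≠ 0 := by positivity
    apply mul_left_cancel₀ hK
    have e1 : (32 * ((n : ℚ) + 2) ^ 3 * (11 * ((n : ℚ) + 1) + 3)) *
        ((11 * ((n : ℚ) + 1 + 1) + 3) * uu (n + 1 + 1))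
        = (11 * ((n : ℚ) + 1) + 14) * (3 * (2 * ((n : ℚ) + 1) + 1) * (3 * ((n : ℚ) + 1) + 1)
          * (3 * ((n : ℚ) + 1) + 2)) * ((11 * ((n : ℚ) + 1) + 3) * uu (n + 1)) := by
      linear_combination (11 * ((n : ℚ) + 1) + 3) * (11 * ((n : ℚ) + 1) + 14) * hu
    rw [e1, ← ih]
    have hA : (n : ℚ) + 1 + 1 ≠ 0 := by positivity
    have hB : (n : ℚ) + 1 + 2 ≠ 0 := by positivity
    have hC : 2 * ((n : ℚ) + 1) + 2 ≠ 0 := by positivity
    have hD : 2 * ((n : ℚ) + 1 + 1) + 2 ≠ 0 := by positivity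
    have l1 : (2 * ((n : ℚ) + 1) + 1) ^ 3 / (8 * ((n : ℚ) + 1 + 1))
        = ((n : ℚ) + 1 + 1) ^ 2 * ((2 * ((n : ℚ) + 1) + 1) / (2 * ((n : ℚ) + 1) + 2)) ^ 3 := by
      field_simp
      ring
    have l2 : (2 * ((n : ℚ) + 1) + 1) ^ 3 * (2 * ((n : ℚ) + 1) + 3) ^ 3 /
        (64 * ((n : ℚ) + 1 + 1) ^ 3 * ((n : ℚ) + 1 + 2))
        = ((n : ℚ) + 1 + 1 + 1) ^ 2 * ((2 * ((n : ℚ) + 1) + 1) / (2 * ((n : ℚ) + 1) + 2)) ^ 3
          * ((2 * ((n : ℚ) + 1 + 1) + 1) / (2 * ((n : ℚ) + 1 + 1) + 2)) ^ 3 := by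
      field_simp
      ring
    rw [l1, l2] at hr
    generalize ha : (2 * ((n : ℚ) + 1) + 1) / (2 * ((n : ℚ) + 1) + 2) = a at *
    generalize hb : (2 * ((n : ℚ) + 1 + 1) + 1) / (2 * ((n : ℚ) + 1 + 1) + 2) = b at *
    have hc3 : cc (n + 1) * (2 * ((n : ℚ) + 1) + 1) / (2 * ((n : ℚ) + 1) + 2) = cc (n + 1) * a := by
      rw [mul_div_assoc, ha]
    have hc4 : cc (n + 1) * (2 * ((n : ℚ) + 1) + 1) / (2 * ((n : ℚ) + 1) + 2)
        * (2 * ((n : ℚ) + 1 + 1) + 1) / (2 * ((n : ℚ) + 1 + 1) + 2) = cc (n + 1) * a * b := by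
      rw [hc3, mul_div_assoc, hb]
    rw [hc4, hc3]
    linear_combination (24 * cc (n + 1) ^ 3) * hr

/-- the main exact identity -/
theorem main_identity (n : ℕ) :
    ∑ k ∈ range (n + 1), (11 * (k : ℚ) + 3) * uu k = RR n := by
  induction n with
  | zero => norm_num [RR, AA, sA, cc, uu, Finset.sum_range_succ, Nat.choose]
  | succ n ih =>
    rw [Finset.sum_range_succ, ih]
    have := RR_rec n
    push_cast
    linear_combination -this

end Pool.Agent.Lib_d8ed36
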