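import Pool.Agent.Lib_d8ed36.Padic
import Pool.Agent.Lib_d8ed36.Identity
import Mathlib.Tactic

set_option autoImplicit false

namespace Pool.Agent.Lib_d8ed36

open Finset

/-- `∑ (-1)^k C(n,k)/(2k+1)` -/
def WW (n : ℕ) : ℚ := ∑ k ∈ range (n + 1), (-1) ^ k * ((n.choose k : ℕ) : ℚ) / (2 * (k : ℚ) + 1)

lemma WW_rec (n : ℕ) : (2 * (n : ℚ) + 3) * WW (n + 1) = (2 * (n : ℚ) + 2) * WW n := by
  have h0 : WW n = ∑ k ∈ range (n + 2), (-1) ^ k * ((n.choose k : ℕ) : ℚ) / (2 * (k : ℚ) + 1) := by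
    rw [Finset.sum_range_succ, WW]
    rw [Nat.choose_eq_zero_of_lt (by omega : n < n + 1)]; simp
  rw [h0, WW, Finset.mul_sum, Finset.mul_sum, ← sub_eq_zero, ← Finset.sum_sub_distrib]
  have h1 : ∀ k ∈ range (n + 2), (2 * (n : ℚ) + 3) * ((-1) ^ k * (((n + 1).choose k : ℕ) : ℚ)
      / (2 * (k : ℚ) + 1)) - (2 * (n : ℚ) + 2) * ((-1) ^ k * ((n.choose k : ℕ) : ℚ)
      / (2 * (k : ℚ) + 1)) = (-1) ^ k * (((n + 1).choose k : ℕ) : ℚ) := by
    intro k _
    have hk : 2 * (k : ℚ) + 1 ≠ 0 := by positivity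
    have hn : (n : ℚ) + 1 ≠ 0 := by positivity
    have := ch1 n k
    field_simp
    linear_combination (-2) * this
  rw [Finset.sum_congr rfl h1]
  have h2 := Int.alternating_sum_range_choose (n := n + 1)
  have h3 : ((∑ m ∈ range (n + 1 + 1), (-1) ^ m * (((n + 1).choose m : ℕ) : ℤ) : ℤ) : ℚ) = 0 := by
    rw [h2]; simp
  push_cast at h3
  exact h3

lemma WW_cc (n : ℕ) : cc (n + 1) * (((n : ℚ) + 1) * WW n) = 1 / 2 := by
  induction n with
  | zero => norm_num [cc, WW, Nat.choose]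
  | succ n ih =>
    have h1 := cc_rec (n + 1)
    have h2 := WW_rec n
    rw [h1]
    push_cast
    have h3 : (2 * ((n : ℚ) + 1) + 2) ≠ 0 := by positivity
    have : cc (n + 1) * (2 * ((n : ℚ) + 1) + 1) / (2 * ((n : ℚ) + 1) + 2)
        * (((n : ℚ) + 1 + 1) * WW (n + 1))
      = cc (n + 1) * ((2 * (n : ℚ) + 3) * WW (n + 1)) / 2 := by
      field_simp
      ring
    rw [this, h2]
    linear_combination ih

/-- symmetric splitting of a sum of odd length -/
lemma sum_split (M : ℕ) (f : ℕ → ℚ) :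
    ∑ k ∈ range (2 * M + 1), f k
      = f M + ∑ j ∈ range M, (f (M - 1 - j) + f (M + 1 + j)) := by
  have h1 : ∑ k ∈ range (M + (M + 1)), f k
      = ∑ k ∈ range M, f k + ∑ k ∈ range (M + 1), f (M + k) := Finset.sum_range_add _ _ _
  have h2 : ∑ k ∈ range (M + 1), f (M + k) = ∑ j ∈ range M, f (M + (j + 1)) + f (M + 0) :=
    Finset.sum_range_succ' _ _
  have h3 : ∑ j ∈ range M, f (M - 1 - j) = ∑ j ∈ range M, f j := Finset.sum_range_reflect _ _
  have h4 : ∑ j ∈ range M, f (M + (j + 1)) = ∑ j ∈ range M, f (M + 1 + j) :=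
    Finset.sum_congr rfl (fun j _ => by rw [show M + (j + 1) = M + 1 + j by ring])
  rw [show 2 * M + 1 = M + (M + 1) by ring, h1, h2, h4, Finset.sum_add_distrib, h3, add_zero]
  ring

section

variable {p : ℕ} (hp : p.Prime) (hp2 : p ≠ 2)

include hp hp2

lemma D.half {n : ℕ} {x : ℚ} (hx : D p n x) : D p n (x / 2) := by
  have h : ¬ p ∣ 2 := by
    intro h
    exact hp2 ((Nat.prime_dvd_prime_iff_eq hp Nat.prime_two).mp h)
  exact_mod_cast hx.div_nat hp h

lemma D.inv_add_two {a : ℚ} (ha : D p 1 a) : a + 2 ≠ 0 ∧ D p 0 (1 / (a + 2)) := by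
  have h1 : D p 1 ((1 + a / 2) - 1) := by
    have := D.half hp hp2 ha
    simpa using this
  obtain ⟨h2, h3⟩ := D.inv_of_one hp h1
  have h4 : a + 2 = 2 * (1 + a / 2) := by ring
  refine ⟨?_, ?_⟩
  · rw [h4]; exact mul_ne_zero (by norm_num) h2
  · rw [h4]
    have := D.half hp hp2 h3
    have h5 : 1 / (2 * (1 + a / 2)) = (1 + a / 2)⁻¹ / 2 := by field_simp
    rw [h5]; exact this

lemma D.inv_sub_two {a : ℚ} (ha : D p 1 a) : a - 2 ≠ 0 ∧ D p 0 (1 / (a - 2)) := by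
  obtain ⟨h1, h2⟩ := D.inv_add_two hp hp2 ha.neg
  have h3 : a - 2 = -(-a + 2) := by ring
  refine ⟨?_, ?_⟩
  · rw [h3]; exact neg_ne_zero.mpr h1
  · rw [h3, one_div_neg_eq_neg_one_div]
    exact h2.neg

omit hp2 in
lemma mul_congr_one {m : ℕ} {x y a b : ℚ} (hx : D p (m + m) (x - (1 + a)))
    (hy : D p (m + m) (y - (1 + b))) (ha : D p m a) (hb : D p m b) :
    D p (m + m) (x * y - (1 + (a + b))) := by
  have h1 : x * y - (1 + (a + b)) = (x - (1 + a)) * (y - (1 + b))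
      + (x - (1 + a)) * (1 + b) + (1 + a) * (y - (1 + b)) + a * b := by ring
  rw [h1]
  have ha0 : D p 0 (1 + a) := D.add hp (D.one hp) (ha.mono (Nat.zero_le _))
  have hb0 : D p 0 (1 + b) := D.add hp (D.one hp) (hb.mono (Nat.zero_le _))
  refine D.add hp (D.add hp (D.add hp ?_ ?_) ?_) ?_
  · exact D.mul0 hp hx (hy.mono (Nat.zero_le _))
  · exact D.mul0 hp hx hb0
  · exact D.mul0' hp ha0 hy
  · exact ha.mul hp hb

/-- first kind of term -/
lemma tau_term {a : ℚ} (ha : D p 1 a) : D p 4 (a / (a - 2) + a / (a + 2) + a ^ 2 / 2) := by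
  obtain ⟨h1, h2⟩ := D.inv_add_two hp hp2 ha
  obtain ⟨h3, h4⟩ := D.inv_sub_two hp hp2 ha
  have h5 : a / (a - 2) + a / (a + 2) + a ^ 2 / 2
      = (a * a * (a * a)) / 2 * ((1 / (a - 2)) * (1 / (a + 2))) := by
    field_simp
    ring
  rw [h5]
  have h6 : D p 4 (a * a * (a * a)) := by
    have := (ha.mul hp ha).mul hp (ha.mul hp ha)
    simpa using this
  exact D.mul0 hp (D.half hp hp2 h6) (D.mul0 hp h4 h2)

/-- second kind of term -/
lemma theta_term {a w g h X Q : ℚ} (ha : D p 1 a) (hX : D p 1 X) (hQ : D p 2 Q)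
    (hw : D p 2 (w - (1 + X))) (hg : D p 2 (g - (1 + X)))
    (hgh : D p 3 (g * h - (1 - 2 * Q))) :
    D p 4 (w ^ 2 * (a / (a - 2) * g + a / (a + 2) / h)
      - (-(a ^ 2 / 2) * (1 + 3 * X) + a * Q)) := by
  obtain ⟨h1, h2⟩ := D.inv_add_two hp hp2 ha
  obtain ⟨h3, h4⟩ := D.inv_sub_two hp hp2 ha
  have h2Q : D p 2 (2 * Q) := by
    have := D.add hp hQ hQ
    rwa [← two_mul] at this
  -- gh is a unit
  have hgh1 : D p 2 (g * h - 1) := by
    have : g * h - 1 = (g * h - (1 - 2 * Q)) - 2 * Q := by ring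
    rw [this]
    exact D.sub hp (hgh.mono (by norm_num)) h2Q
  obtain ⟨hgh0, hghi⟩ := D.inv_of_one hp (hgh1.mono (by norm_num : 1 ≤ 2))
  have hg0 : g ≠ 0 := left_ne_zero_of_mul hgh0
  have hh0 : h ≠ 0 := right_ne_zero_of_mul hgh0
  -- rho
  set ρ : ℚ := (g * h)⁻¹ - 1 with hρ
  have hρ1 : D p 3 (ρ - 2 * Q) := by
    have e : ρ - 2 * Q = (-(g * h - (1 - 2 * Q)) - (2 * Q) * (g * h - 1)) * (g * h)⁻¹ := by
      rw [hρ]
      field_simp
      ring
    rw [e]
    refine D.mul0 hp (D.sub hp hgh.neg ?_) hghi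
    exact (h2Q.mul hp hgh1).mono (by norm_num)
  -- w^2 g
  have hww : D p 2 (w * w - (1 + (X + X))) := mul_congr_one (m := 1) hp hw hw hX hX
  have hXX : D p 1 (X + X) := D.add hp hX hX
  have hwwg : D p 2 (w * w * g - (1 + ((X + X) + X))) := mul_congr_one (m := 1) hp hww hg hXX hX
  have h3X : D p 1 (X + X + X) := D.add hp hXX hX
  have hwwg1 : D p 1 (w * w * g - 1) := by
    have : w * w * g - 1 = (w * w * g - (1 + ((X + X) + X))) + (X + X + X) := by ring
    rw [this]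
    exact D.add hp (hwwg.mono (by norm_num)) h3X
  have hwwg0 : D p 0 (w * w * g) := by
    have : w * w * g = (w * w * g - 1) + 1 := by ring
    rw [this]
    exact D.add hp (hwwg1.mono (by norm_num)) (D.one hp)
  have ha2 : D p 2 (a ^ 2 / 2) := by
    rw [pow_two]
    exact D.half hp hp2 (ha.mul hp ha)
  -- decomposition
  have key : w ^ 2 * (a / (a - 2) * g + a / (a + 2) / h)
      - (-(a ^ 2 / 2) * (1 + 3 * X) + a * Q)
      = (w * w * g) * (a / (a - 2) + a / (a + 2) + a ^ 2 / 2)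
        - (a ^ 2 / 2) * (w * w * g - (1 + ((X + X) + X)))
        + (w * w * g) * (a * (1 / (a + 2))) * (ρ - 2 * Q)
        + (a * Q) * (2 * (w * w * g) * (1 / (a + 2)) - 1) := by
    rw [hρ]
    field_simp
    ring
  rw [key]
  refine D.add hp (D.add hp (D.sub hp ?_ ?_) ?_) ?_
  · exact D.mul0' hp hwwg0 (tau_term hp hp2 ha)
  · exact ha2.mul hp hwwg
  · have : D p 1 ((w * w * g) * (a * (1 / (a + 2)))) :=
      D.mul0' hp hwwg0 (D.mul0 hp ha h2)
    exact this.mul hp hρ1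
  · have e : 2 * (w * w * g) * (1 / (a + 2)) - 1
        = (2 * (w * w * g - 1) - a) * (1 / (a + 2)) := by
      field_simp
      ring
    have : D p 1 (2 * (w * w * g) * (1 / (a + 2)) - 1) := by
      rw [e]
      refine D.mul0 hp (D.sub hp ?_ ha) h2
      rw [two_mul]
      exact D.add hp hwwg1 hwwg1
    exact (ha.mul hp hQ).mul hp this

/-- term in the expansion of `V` -/
lemma vterm {a w X : ℚ} (ha : D p 1 a)
    (hw : D p 2 (w - (1 + X))) (hX : D p 1 X) :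
    D p 4 (w * (a / (a - 2) + a / (a + 2)) - (-(a ^ 2 / 2) * (1 + X))) := by
  have ha2 : D p 2 (a ^ 2 / 2) := by
    rw [pow_two]
    exact D.half hp hp2 (ha.mul hp ha)
  have hw0 : D p 0 w := by
    have : w = (w - (1 + X)) + (1 + X) := by ring
    rw [this]
    exact D.add hp (hw.mono (by norm_num)) (D.add hp (D.one hp) (hX.mono (by norm_num)))
  have key : w * (a / (a - 2) + a / (a + 2)) - (-(a ^ 2 / 2) * (1 + X))
      = w * (a / (a - 2) + a / (a + 2) + a ^ 2 / 2) - (a ^ 2 / 2) * (w - (1 + X)) := by ring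
  rw [key]
  exact D.sub hp (D.mul0' hp hw0 (tau_term hp hp2 ha)) (ha2.mul hp hw)

end

/-- `(-1)^k C(2M,k)` -/
def mm (M k : ℕ) : ℚ := (-1) ^ k * (((2 * M).choose k : ℕ) : ℚ)

/-- `C(2M+1+k,k)` -/
def qq (M k : ℕ) : ℚ := (((2 * M + 1 + k).choose k : ℕ) : ℚ)

lemma mm_succ (M k : ℕ) : mm M (k + 1) = mm M k * (1 - (2 * (M : ℚ) + 1) / ((k : ℚ) + 1)) := by
  have hk : (k : ℚ) + 1 ≠ 0 := by positivity
  have h := ch2 (2 * M) k
  unfold mm
  rw [pow_succ]
  push_cast at h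
  field_simp
  linear_combination (-1) * h

lemma qq_succ (M k : ℕ) : qq M (k + 1) = qq M k * (1 + (2 * (M : ℚ) + 1) / ((k : ℚ) + 1)) := by
  have hk : (k : ℚ) + 1 ≠ 0 := by positivity
  have h := ch4 (2 * M + 1) k
  unfold qq
  push_cast at h
  field_simp
  linear_combination h

lemma mm_symm (M j : ℕ) (hj : j < M) : mm M (M - 1 - j) = mm M (M + 1 + j) := by
  unfold mm
  have h1 : (2 * M).choose (M - 1 - j) = (2 * M).choose (M + 1 + j) :=
    Nat.choose_symm_of_eq_add (by omega)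
  rw [h1]
  have h2 : M + 1 + j = (M - 1 - j) + 2 * (j + 1) := by omega
  have h3 : (-1 : ℚ) ^ (M + 1 + j) = (-1) ^ (M - 1 - j) := by
    rw [h2, pow_add, pow_mul]; simp
  rw [h3]

/-- `N / (M - l)`, `N = 2M+1` -/
def xx (M l : ℕ) : ℚ := (2 * (M : ℚ) + 1) / (((M - l : ℕ) : ℚ))

/-- `N / (M + 1 + l)` -/
def yy (M l : ℕ) : ℚ := (2 * (M : ℚ) + 1) / ((M : ℚ) + 1 + l)

lemma mm_prod (M j : ℕ) :
    mm M (M + 1 + j) = mm M M * ∏ l ∈ range (j + 1), (1 - yy M l) := by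
  induction j with
  | zero =>
    rw [add_zero, mm_succ]
    simp [yy]
  | succ j ih =>
    rw [Finset.prod_range_succ, ← mul_assoc, ← ih, show M + 1 + (j + 1) = M + 1 + j + 1 by ring,
      mm_succ]
    unfold yy
    push_cast
    ring_nf

lemma qq_prod (M j : ℕ) :
    qq M (M + 1 + j) = qq M M * ∏ l ∈ range (j + 1), (1 + yy M l) := by
  induction j with
  | zero =>
    rw [add_zero, qq_succ]
    simp [yy]
  | succ j ih =>
    rw [Finset.prod_range_succ, ← mul_assoc, ← ih, show M + 1 + (j + 1) = M + 1 + j + 1 by ring,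
      qq_succ]
    unfold yy
    push_cast
    ring_nf

lemma qq_prod' (M j : ℕ) (hj : j < M) :
    qq M M = qq M (M - 1 - j) * ∏ l ∈ range (j + 1), (1 + xx M l) := by
  induction j with
  | zero =>
    have h := qq_succ M (M - 1)
    rw [show M - 1 + 1 = M by omega] at h
    rw [h]
    simp only [zero_add, Finset.range_one, Finset.prod_singleton, xx, Nat.sub_zero]
    have : ((M - 1 : ℕ) : ℚ) + 1 = (M : ℚ) := by
      rw [Nat.cast_sub (by omega)]; simp
    rw [this]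
  | succ j ih =>
    rw [ih (by omega), Finset.prod_range_succ (fun l => 1 + xx M l) (j + 1)]
    have h := qq_succ M (M - 1 - (j + 1))
    rw [show M - 1 - (j + 1) + 1 = M - 1 - j by omega] at h
    rw [h]
    have : ((M - 1 - (j + 1) : ℕ) : ℚ) + 1 = ((M - (j + 1) : ℕ) : ℚ) := by
      rw [show M - (j + 1) = (M - 1 - (j + 1)) + 1 by omega]; push_cast; ring
    have h5 : (1 + xx M (j + 1)) = 1 + (2 * (M : ℚ) + 1) / (((M - 1 - (j + 1) : ℕ) : ℚ) + 1) := by
      unfold xx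
      rw [this]
    rw [h5]
    ring

lemma mm_ne (M k : ℕ) (h : k ≤ 2 * M) : mm M k ≠ 0 := by
  unfold mm
  have : 0 < (2 * M).choose k := Nat.choose_pos h
  positivity

lemma qq_ne (M k : ℕ) : qq M k ≠ 0 := choose_pos' (2 * M + 1) k

end Pool.Agent.Lib_d8ed36
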