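import Pool.Agent.Lib_d8ed36.Main1
import Mathlib.Tactic

set_option autoImplicit false
set_option linter.unusedSectionVars false

namespace Pool.Agent.Lib_d8ed36

open Finset

lemma D_ppow_div {p : ℕ} (hp : p.Prime) (n k i : ℕ) (hi : i ≠ 0) (hk : k ≤ n)
    (h : ¬ p ^ (k + 1) ∣ i) : D p (n - k) ((p : ℚ) ^ n / (i : ℚ)) := by
  obtain ⟨v, u, hu, rfl⟩ := Nat.exists_eq_pow_mul_and_not_dvd hi p hp.ne_one
  have hv : v ≤ k := by
    by_contra hv
    apply h
    exact dvd_mul_of_dvd_left (pow_dvd_pow p (by omega)) u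
  have hp0 : (p : ℚ) ≠ 0 := by exact_mod_cast hp.ne_zero
  have hu0 : (u : ℚ) ≠ 0 := by
    intro h0
    apply hu
    have : u = 0 := by exact_mod_cast h0
    simp [this]
  refine ⟨(p : ℤ) ^ (k - v), u, by exact_mod_cast hu, ?_⟩
  push_cast
  rw [← pow_add, show n - k + (k - v) = n - v by omega]
  have h1 : (p : ℚ) ^ n = (p : ℚ) ^ (n - v) * (p : ℚ) ^ v := by
    rw [← pow_add]; congr 1; omega
  rw [h1]
  field_simp

section

variable {p : ℕ} (hp : p.Prime) {M' : ℕ} (hpM : p = 2 * M' + 1) (e M : ℕ)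
  (hM : p ^ (e + 1) = 2 * M + 1)

include hp hpM hM

lemma mem_lift (t : ℕ) : p ^ e * t ∈ Icc 1 M ↔ t ∈ Icc 1 M' := by
  have hpe : 0 < p ^ e := Nat.pow_pos hp.pos
  have h1 : p ^ (e + 1) = p ^ e * p := pow_succ p e
  simp only [Finset.mem_Icc]
  constructor
  · rintro ⟨ha, hb⟩
    constructor
    · rcases Nat.eq_zero_or_pos t with h | h
      · subst h; simp at ha
      · exact h
    · by_contra hc
      push Not at hc
      have : p ≤ 2 * t := by omega
      have := Nat.mul_le_mul_left (p ^ e) this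
      have h3 : p ^ e * (2 * t) = 2 * (p ^ e * t) := by ring
      omega
  · rintro ⟨ha, hb⟩
    constructor
    · exact Nat.succ_le_of_lt (Nat.mul_pos hpe ha)
    · have : 2 * t + 1 ≤ p := by omega
      have := Nat.mul_le_mul_left (p ^ e) this
      have h3 : p ^ e * (2 * t + 1) = 2 * (p ^ e * t) + p ^ e := by ring
      omega

lemma lt_lift (i t : ℕ) : M < p ^ e * i + p ^ e * t ↔ M' < i + t := by
  have hpe : 0 < p ^ e := Nat.pow_pos hp.pos
  have h1 : p ^ (e + 1) = p ^ e * p := pow_succ p e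
  constructor
  · intro h
    by_contra hc
    push Not at hc
    have : 2 * (i + t) + 1 ≤ p := by omega
    have := Nat.mul_le_mul_left (p ^ e) this
    have h3 : p ^ e * (2 * (i + t) + 1) = 2 * (p ^ e * i + p ^ e * t) + p ^ e := by ring
    omega
  · intro h
    have : p ≤ 2 * (i + t) - 1 + 0 := by omega
    have h4 : p + 1 ≤ 2 * (i + t) := by omega
    have := Nat.mul_le_mul_left (p ^ e) h4
    have h3 : p ^ e * (2 * (i + t)) = 2 * (p ^ e * i + p ^ e * t) := by ring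
    have h5 : p ^ e * (p + 1) = p ^ e * p + p ^ e := by ring
    omega

lemma reduce_sum {n : ℕ} (f : ℕ → ℚ) (h : ∀ i ∈ Icc 1 M, ¬ p ^ e ∣ i → D p n (f i)) :
    D p n (∑ i ∈ Icc 1 M, f i - ∑ t ∈ Icc 1 M', f (p ^ e * t)) := by
  have hpe : 0 < p ^ e := Nat.pow_pos hp.pos
  have h1 := Finset.sum_filter_add_sum_filter_not (Icc 1 M) (fun i => p ^ e ∣ i) f
  have h2 : ∑ i ∈ (Icc 1 M).filter (fun i => p ^ e ∣ i), f i
      = ∑ t ∈ Icc 1 M', f (p ^ e * t) := by
    symm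
    refine Finset.sum_nbij (fun t => p ^ e * t) ?_ ?_ ?_ (fun _ _ => rfl)
    · intro t ht
      rw [Finset.mem_filter]
      exact ⟨(mem_lift hp hpM e M hM t).mpr ht, dvd_mul_right _ _⟩
    · intro a _ b _ hab
      exact Nat.eq_of_mul_eq_mul_left hpe hab
    · intro i hi
      rw [Finset.mem_coe, Finset.mem_filter] at hi
      obtain ⟨t, rfl⟩ := hi.2
      exact ⟨t, by exact_mod_cast (mem_lift hp hpM e M hM t).mp hi.1, rfl⟩
  rw [← h1, h2, add_sub_cancel_left]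
  refine D.sum hp _ _ (fun i hi => ?_)
  rw [Finset.mem_filter] at hi
  exact h i hi.1 hi.2

lemma N_div (t : ℕ) : (p : ℚ) ^ (e + 1) / ((p ^ e * t : ℕ) : ℚ) = (p : ℚ) / t := by
  have hp0 : (p : ℚ) ≠ 0 := by exact_mod_cast hp.ne_zero
  push_cast
  rw [pow_succ, mul_div_mul_left _ _ (pow_ne_zero e hp0)]

lemma D_alpha (i : ℕ) (h1 : 1 ≤ i) (h2 : i ≤ 2 * M) : D p 1 ((p : ℚ) ^ (e + 1) / (i : ℚ)) := by
  have := D_ppow_div hp (e + 1) e i (by omega) (by omega)
    (fun h => by have := Nat.le_of_dvd (by omega) h; omega)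
  rwa [show e + 1 - e = 1 by omega] at this

lemma D_alpha2 (i : ℕ) (h1 : 1 ≤ i) (h2 : ¬ p ^ e ∣ i) : D p 2 ((p : ℚ) ^ (e + 1) / (i : ℚ)) := by
  rcases Nat.eq_zero_or_pos e with h | h
  · subst h; simp at h2
  · have := D_ppow_div hp (e + 1) (e - 1) i (by omega) (by omega)
      (by rwa [show e - 1 + 1 = e by omega])
    rwa [show e + 1 - (e - 1) = 2 by omega] at this

lemma S2_reduce :
    D p 4 (∑ j ∈ range M, aa M j ^ 2 - ∑ t ∈ Icc 1 M', ((p : ℚ) / t) ^ 2) := by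
  have hN : (2 * (M : ℚ) + 1) = (p : ℚ) ^ (e + 1) := by exact_mod_cast hM.symm
  have h1 : ∑ j ∈ range M, aa M j ^ 2 = ∑ i ∈ Icc 1 M, ((p : ℚ) ^ (e + 1) / (i : ℚ)) ^ 2 := by
    rw [← Finset.Ico_add_one_right_eq_Icc, Finset.sum_Ico_eq_sum_range]
    refine Finset.sum_congr (by simp) (fun j _ => ?_)
    unfold aa
    rw [hN]
    push_cast
    rw [add_comm (j : ℚ) 1]
  have h2 : ∑ t ∈ Icc 1 M', ((p : ℚ) / t) ^ 2
      = ∑ t ∈ Icc 1 M', ((p : ℚ) ^ (e + 1) / ((p ^ e * t : ℕ) : ℚ)) ^ 2 :=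
    Finset.sum_congr rfl (fun t _ => by rw [N_div hp hpM e M hM t])
  rw [h1, h2]
  refine reduce_sum hp hpM e M hM (fun i => ((p : ℚ) ^ (e + 1) / (i : ℚ)) ^ 2) (fun i hi hd => ?_)
  have := D_alpha2 hp hpM e M hM i (Finset.mem_Icc.mp hi).1 hd
  have h := this.mul hp this
  show D p 4 (((p : ℚ) ^ (e + 1) / (i : ℚ)) ^ 2)
  rw [pow_two]
  exact h

lemma QQ_eq (j : ℕ) (hj : j < M) : QQ M j
    = ∑ t ∈ Icc 1 M, if M < (j + 1) + t then ((p : ℚ) ^ (e + 1) / (t : ℚ)) ^ 2 else 0 := by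
  have hN : (2 * (M : ℚ) + 1) = (p : ℚ) ^ (e + 1) := by exact_mod_cast hM.symm
  rw [← Finset.sum_filter]
  unfold QQ xx
  rw [hN]
  refine Finset.sum_nbij (fun l => M - l) ?_ ?_ ?_ ?_
  · intro l hl
    have := Finset.mem_range.mp hl
    rw [Finset.mem_filter, Finset.mem_Icc]
    omega
  · intro a ha b hb hab
    have ha' := Finset.mem_range.mp (Finset.mem_coe.mp ha)
    have hb' := Finset.mem_range.mp (Finset.mem_coe.mp hb)
    have : M - a = M - b := hab
    omega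
  · intro t ht
    rw [Finset.mem_coe, Finset.mem_filter, Finset.mem_Icc] at ht
    refine ⟨M - t, ?_, ?_⟩
    · rw [Finset.mem_coe, Finset.mem_range]; omega
    · show M - (M - t) = t
      omega
  · intro l _
    rfl

lemma K_reduce :
    D p 4 (∑ j ∈ range M, aa M j * QQ M j
      - ∑ i ∈ Icc 1 M', ((p : ℚ) / i)
          * ∑ t ∈ Icc 1 M', if M' < i + t then ((p : ℚ) / t) ^ 2 else 0) := by
  have hN : (2 * (M : ℚ) + 1) = (p : ℚ) ^ (e + 1) := by exact_mod_cast hM.symm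
  set F : ℕ → ℚ := fun i => ((p : ℚ) ^ (e + 1) / (i : ℚ)) *
    ∑ t ∈ Icc 1 M, if M < i + t then ((p : ℚ) ^ (e + 1) / (t : ℚ)) ^ 2 else 0 with hF
  have hp1 : ∀ i ∈ Icc 1 M, D p 1 ((p : ℚ) ^ (e + 1) / (i : ℚ)) := fun i hi => by
    have := Finset.mem_Icc.mp hi
    exact D_alpha hp hpM e M hM i this.1 (by omega)
  have h1 : ∑ j ∈ range M, aa M j * QQ M j = ∑ i ∈ Icc 1 M, F i := by
    rw [← Finset.Ico_add_one_right_eq_Icc, Finset.sum_Ico_eq_sum_range]
    refine Finset.sum_congr (by simp) (fun j hj => ?_)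
    have hj' : j < M := by simpa using Finset.mem_range.mp hj
    rw [QQ_eq hp hpM e M hM j hj']
    unfold aa
    rw [hN]
    simp only [hF]
    push_cast
    rw [add_comm (j : ℚ) 1, add_comm j 1]
  have h2 : D p 4 (∑ i ∈ Icc 1 M, F i - ∑ t ∈ Icc 1 M', F (p ^ e * t)) := by
    refine reduce_sum hp hpM e M hM F (fun i hi hd => ?_)
    have h3 := D_alpha2 hp hpM e M hM i (Finset.mem_Icc.mp hi).1 hd
    have h4 : D p 2 (∑ t ∈ Icc 1 M, if M < i + t then ((p : ℚ) ^ (e + 1) / (t : ℚ)) ^ 2 else 0) := by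
      refine D.sum hp _ _ (fun t ht => ?_)
      split_ifs
      · have := hp1 t ht
        rw [pow_two]; exact this.mul hp this
      · exact D.zero' hp 2
    exact h3.mul hp h4
  have h5 : D p 4 (∑ i ∈ Icc 1 M', F (p ^ e * i) - ∑ i ∈ Icc 1 M', ((p : ℚ) / i)
          * ∑ t ∈ Icc 1 M', if M' < i + t then ((p : ℚ) / t) ^ 2 else 0) := by
    rw [← Finset.sum_sub_distrib]
    refine D.sum hp _ _ (fun i hi => ?_)
    have hi' := (mem_lift hp hpM e M hM i).mpr hi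
    have h6 := hp1 _ hi'
    simp only [hF]
    rw [N_div hp hpM e M hM i] at h6 ⊢
    rw [← mul_sub]
    refine D.mul0' hp (h6.mono (by norm_num)) ?_
    have h7 := reduce_sum hp hpM e M hM (n := 4)
      (fun t => if M < p ^ e * i + t then ((p : ℚ) ^ (e + 1) / (t : ℚ)) ^ 2 else 0)
      (fun t ht hd => by
        show D p 4 (if M < p ^ e * i + t then ((p : ℚ) ^ (e + 1) / (t : ℚ)) ^ 2 else 0)
        split_ifs
        · have := D_alpha2 hp hpM e M hM t (Finset.mem_Icc.mp ht).1 hd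
          rw [pow_two]
          exact this.mul hp this
        · exact D.zero' hp 4)
    have h8 : ∑ t ∈ Icc 1 M', (if M < p ^ e * i + p ^ e * t
          then ((p : ℚ) ^ (e + 1) / ((p ^ e * t : ℕ) : ℚ)) ^ 2 else 0)
        = ∑ t ∈ Icc 1 M', if M' < i + t then ((p : ℚ) / t) ^ 2 else 0 := by
      refine Finset.sum_congr rfl (fun t _ => ?_)
      rw [N_div hp hpM e M hM t]
      simp only [lt_lift hp hpM e M hM i t]
    rw [h8] at h7
    exact h7
  rw [h1]
  have := D.add hp h2 h5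
  rwa [sub_add_sub_cancel] at this

end

end Pool.Agent.Lib_d8ed36
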