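import Pool.Agent.Lib_d8ed36.Bern
import Pool.Agent.Lib_d8ed36.Reduce
import Mathlib.Tactic

set_option autoImplicit false
set_option linter.unusedSectionVars false

namespace Pool.Agent.Lib_d8ed36

open Finset

lemma Icc_sum_eq (m : ℕ) (f : ℕ → ℚ) : ∑ t ∈ Icc 1 m, f t = ∑ t ∈ range m, f (t + 1) := by
  rw [← Finset.Ico_add_one_right_eq_Icc, Finset.sum_Ico_eq_sum_range]
  refine Finset.sum_congr (by simp) (fun t _ => by rw [add_comm])

lemma S2p (m : ℕ) (x : ℚ) : ∑ t ∈ Icc 1 m, (x / (t : ℚ)) ^ 2 = x ^ 2 * Hr 2 m := by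
  rw [Icc_sum_eq, Hr, Finset.mul_sum]
  refine Finset.sum_congr rfl (fun t _ => ?_)
  push_cast
  rw [div_pow]
  ring

lemma Kp (m : ℕ) (x : ℚ) : ∑ i ∈ Icc 1 m, (x / (i : ℚ))
    * ∑ t ∈ Icc 1 m, (if m < i + t then (x / (t : ℚ)) ^ 2 else 0) = x ^ 3 * Ks m := by
  have h1 : ∑ i ∈ Icc 1 m, (x / (i : ℚ))
      * ∑ t ∈ Icc 1 m, (if m < i + t then (x / (t : ℚ)) ^ 2 else 0)
      = ∑ t ∈ Icc 1 m, (x / (t : ℚ)) ^ 2 * ∑ i ∈ Icc 1 m, (if m < i + t then x / (i : ℚ) else 0) := by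
    simp_rw [Finset.mul_sum]
    rw [Finset.sum_comm]
    refine Finset.sum_congr rfl (fun t _ => Finset.sum_congr rfl (fun i _ => ?_))
    split_ifs
    · ring
    · ring
  rw [h1, Icc_sum_eq, Ks, Finset.mul_sum]
  refine Finset.sum_congr rfl (fun t ht => ?_)
  have ht' := Finset.mem_range.mp ht
  have h2 : ∑ i ∈ Icc 1 m, (if m < i + (t + 1) then x / (i : ℚ) else 0)
      = x * (Hr 1 m - Hr 1 (m - (t + 1))) := by
    rw [Icc_sum_eq]
    have h3 : Hr 1 m - Hr 1 (m - (t + 1))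
        = ∑ i ∈ range m, (if m < i + 1 + (t + 1) then 1 / ((i : ℚ) + 1) ^ 1 else 0) := by
      have h4 : Hr 1 m = ∑ i ∈ range m, (if m < i + 1 + (t + 1) then 1 / ((i : ℚ) + 1) ^ 1 else 0)
          + ∑ i ∈ range m, (if m < i + 1 + (t + 1) then 0 else 1 / ((i : ℚ) + 1) ^ 1) := by
        rw [Hr, ← Finset.sum_add_distrib]
        refine Finset.sum_congr rfl (fun i _ => ?_)
        split_ifs <;> ring
      have h5 : Hr 1 (m - (t + 1))
          = ∑ i ∈ range m, (if m < i + 1 + (t + 1) then 0 else 1 / ((i : ℚ) + 1) ^ 1) := by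
        have : ∀ i ∈ range m, (if m < i + 1 + (t + 1) then (0 : ℚ) else 1 / ((i : ℚ) + 1) ^ 1)
            = if i ∈ range (m - (t + 1)) then 1 / ((i : ℚ) + 1) ^ 1 else 0 := by
          intro i hi
          have hi' := Finset.mem_range.mp hi
          by_cases h : m < i + 1 + (t + 1)
          · rw [if_pos h, if_neg]
            rw [Finset.mem_range]; omega
          · rw [if_neg h, if_pos]
            rw [Finset.mem_range]; omega
        rw [Finset.sum_congr rfl this, ← Finset.sum_filter, Hr]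
        refine Finset.sum_congr ?_ (fun _ _ => rfl)
        ext i
        simp only [Finset.mem_range, Finset.mem_filter]
        omega
      rw [h5]
      nth_rewrite 1 [h4]
      ring
    rw [h3, Finset.mul_sum]
    refine Finset.sum_congr rfl (fun i _ => ?_)
    push_cast
    split_ifs
    · rw [pow_one]; ring
    · ring
  rw [h2]
  push_cast
  rw [div_pow]
  ring

/-- the supercongruence, in terms of `D` -/
theorem final_D (p : ℕ) (hp : p.Prime) (hp2 : p ≠ 2) (e M : ℕ)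
    (hM : p ^ (e + 1) = 2 * M + 1) :
    D p 4 (RR (2 * M) / (2 * (M : ℚ) + 1) - (3 + 7 / 2 * (p : ℚ) ^ 3 * bernoulli (p - 3))) := by
  obtain ⟨M', hpM'⟩ : ∃ M', p = 2 * M' + 1 := hp.odd_of_ne_two hp2
  have hM'1 : 1 ≤ M' := by
    have := hp.two_le
    omega
  have hN : (2 * (M : ℚ) + 1) = (p : ℚ) ^ (e + 1) := by exact_mod_cast hM.symm
  have hα : ∀ i : ℕ, 1 ≤ i → i ≤ 2 * M → D p 1 ((2 * (M : ℚ) + 1) / (i : ℚ)) := by
    intro i h1 h2
    rw [hN]
    exact D_alpha hp hpM' e M hM i h1 h2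
  have h1 := main_expansion hp hp2 hα
  have h2 := S2_reduce hp hpM' e M hM
  have h3 := K_reduce hp hpM' e M hM
  rw [S2p] at h2
  rw [Kp] at h3
  -- p-level statement
  have h4 : D p 4 (3 * (2 * ((p : ℚ) ^ 2 * Hr 2 M') + (p : ℚ) ^ 3 * Ks M')
      - 7 / 2 * (p : ℚ) ^ 3 * bernoulli (p - 3)) := by
    rcases Nat.lt_or_ge M' 2 with h | h
    · have hM1 : M' = 1 := by omega
      subst hM1
      subst hpM'
      refine ⟨1, 2, by decide, ?_⟩
      norm_num [Hr, Ks, Finset.sum_range_succ]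
    · have h5 := combo6 hp hpM'
      have h6 := Z_bern hp hpM' h
      have h7 : D p 2 (6 * (2 * Hr 2 M' + p * Ks M') - 7 * p * bernoulli (2 * M' - 2)) := by
        have e1 : 6 * (2 * Hr 2 M' + p * Ks M') - 7 * p * bernoulli (2 * M' - 2)
            = (6 * (2 * Hr 2 M' + p * Ks M') - 7 * p * Zs M')
              + (7 : ℕ) * (p * (Zs M' - bernoulli (2 * M' - 2))) := by push_cast; ring
        rw [e1]
        exact D.add hp h5 (D.mul0' hp (D.nat hp 7) (D.p_mul hp h6))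
      apply D_unit2 hp hpM'
      have e2 : 2 * (3 * (2 * ((p : ℚ) ^ 2 * Hr 2 M') + (p : ℚ) ^ 3 * Ks M')
          - 7 / 2 * (p : ℚ) ^ 3 * bernoulli (p - 3))
          = (p : ℚ) ^ 2 * (6 * (2 * Hr 2 M' + p * Ks M') - 7 * p * bernoulli (2 * M' - 2)) := by
        rw [show p - 3 = 2 * M' - 2 by omega]
        ring
      rw [e2]
      exact (D.ppow hp 2).mul hp h7
  set S := ∑ j ∈ range M, aa M j ^ 2 with hS
  set K := ∑ j ∈ range M, aa M j * QQ M j with hK
  have e3 : RR (2 * M) / (2 * (M : ℚ) + 1) - (3 + 7 / 2 * (p : ℚ) ^ 3 * bernoulli (p - 3))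
      = (RR (2 * M) / (2 * (M : ℚ) + 1) - 3 * (1 + 2 * S + K))
        + (6 : ℕ) * (S - (p : ℚ) ^ 2 * Hr 2 M') + (3 : ℕ) * (K - (p : ℚ) ^ 3 * Ks M')
        + (3 * (2 * ((p : ℚ) ^ 2 * Hr 2 M') + (p : ℚ) ^ 3 * Ks M')
      - 7 / 2 * (p : ℚ) ^ 3 * bernoulli (p - 3)) := by
    push_cast; ring
  rw [e3]
  exact D.add hp (D.add hp (D.add hp h1 (D.mul0' hp (D.nat hp 6) h2))
    (D.mul0' hp (D.nat hp 3) h3)) h4

end Pool.Agent.Lib_d8ed36
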