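import Pool.Agent.Lib_d8ed36.Expand
import Mathlib.Tactic

set_option autoImplicit false

namespace Pool.Agent.Lib_d8ed36

open Finset

/-- `a_j = N/(j+1)` -/
def aa (M j : ℕ) : ℚ := (2 * (M : ℚ) + 1) / ((j : ℚ) + 1)

def ww (M j : ℕ) : ℚ := ∏ l ∈ range (j + 1), (1 - yy M l)
def gg (M j : ℕ) : ℚ := ∏ l ∈ range (j + 1), (1 + xx M l)
def hh (M j : ℕ) : ℚ := ∏ l ∈ range (j + 1), (1 + yy M l)

lemma Pi_eq (M k : ℕ) : mm M k * qq M k = ∏ i ∈ range k, (1 + -(aa M i ^ 2)) := by
  induction k with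
  | zero => simp [mm, qq]
  | succ k ih =>
    rw [Finset.prod_range_succ, ← ih, mm_succ, qq_succ]
    unfold aa
    ring

lemma frac1 (M j : ℕ) (hj : j < M) :
    (2 * (M : ℚ) + 1) / (2 * ((M - 1 - j : ℕ) : ℚ) + 1) = aa M j / (aa M j - 2) := by
  have h1 : ((M - 1 - j : ℕ) : ℚ) = (M : ℚ) - 1 - j := by
    rw [Nat.sub_sub, Nat.cast_sub (by omega)]; push_cast; ring
  have h2 : (0 : ℚ) < 2 * ((M - 1 - j : ℕ) : ℚ) + 1 := by positivity
  rw [h1] at h2 ⊢
  unfold aa
  have hj1 : (j : ℚ) + 1 ≠ 0 := by positivity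
  have h3 : (2 * (M : ℚ) + 1) / ((j : ℚ) + 1) - 2
      = (2 * ((M : ℚ) - 1 - j) + 1) / ((j : ℚ) + 1) := by
    field_simp
    ring
  rw [h3]
  have h4 := h2.ne'
  field_simp

lemma frac2 (M j : ℕ) :
    (2 * (M : ℚ) + 1) / (2 * ((M + 1 + j : ℕ) : ℚ) + 1) = aa M j / (aa M j + 2) := by
  unfold aa
  have hj1 : (j : ℚ) + 1 ≠ 0 := by positivity
  have h2 : (2 * ((M : ℚ) + 1 + j) + 1) ≠ 0 := by positivity
  have h3 : (2 * (M : ℚ) + 1) / ((j : ℚ) + 1) + 2
      = (2 * ((M : ℚ) + 1 + j) + 1) / ((j : ℚ) + 1) := by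
    field_simp
    ring
  rw [h3]
  push_cast
  field_simp

def Vt (M : ℕ) : ℚ := 1 + ∑ j ∈ range M, ww M j * (aa M j / (aa M j - 2) + aa M j / (aa M j + 2))

def Ut (M : ℕ) : ℚ := 1 + ∑ j ∈ range M, ww M j ^ 2 *
  (aa M j / (aa M j - 2) * gg M j + aa M j / (aa M j + 2) / hh M j)

lemma hh_ne (M j : ℕ) : hh M j ≠ 0 := by
  unfold hh
  rw [Finset.prod_ne_zero_iff]
  intro l _
  unfold yy
  positivity

lemma gg_ne (M j : ℕ) : gg M j ≠ 0 := by
  unfold gg
  rw [Finset.prod_ne_zero_iff]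
  intro l _
  unfold xx
  positivity

lemma V_eq (M : ℕ) : (2 * (M : ℚ) + 1) * WW (2 * M) = mm M M * Vt M := by
  have h0 : (2 * (M : ℚ) + 1) * WW (2 * M)
      = ∑ k ∈ range (2 * M + 1), (2 * (M : ℚ) + 1) / (2 * (k : ℚ) + 1) * mm M k := by
    unfold WW mm
    rw [Finset.mul_sum]
    refine Finset.sum_congr rfl (fun k _ => ?_)
    ring
  rw [h0, sum_split, Vt, mul_add, Finset.mul_sum]
  congr 1
  · have : 2 * (M : ℚ) + 1 ≠ 0 := by positivity
    rw [div_self this]; ring
  · refine Finset.sum_congr rfl (fun j hj => ?_)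
    have hj' := Finset.mem_range.mp hj
    rw [frac1 M j hj', frac2 M j, mm_symm M j hj', mm_prod M j, ww]
    ring

lemma U_eq (M : ℕ) : (2 * (M : ℚ) + 1) * AA (2 * M) * qq M M = mm M M ^ 2 * Ut M := by
  have h0 : (2 * (M : ℚ) + 1) * AA (2 * M) * qq M M
      = ∑ k ∈ range (2 * M + 1), (2 * (M : ℚ) + 1) / (2 * (k : ℚ) + 1)
        * (mm M k ^ 2 * (qq M M / qq M k)) := by
    unfold AA sA
    rw [Finset.mul_sum, Finset.sum_mul]
    refine Finset.sum_congr rfl (fun k _ => ?_)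
    have h1 : mm M k ^ 2 = (((2 * M).choose k : ℕ) : ℚ) ^ 2 := by
      unfold mm
      rw [mul_pow, ← pow_mul, mul_comm k 2, pow_mul]; simp
    have h2 : qq M k = (((2 * M + 1 + k).choose k : ℕ) : ℚ) := rfl
    rw [h1, ← h2]
    have h3 := qq_ne M k
    have h4 : 2 * (k : ℚ) + 1 ≠ 0 := by positivity
    field_simp
  rw [h0, sum_split, Ut, mul_add, Finset.mul_sum]
  congr 1
  · have : 2 * (M : ℚ) + 1 ≠ 0 := by positivity
    rw [div_self this, div_self (qq_ne M M)]; ring
  · refine Finset.sum_congr rfl (fun j hj => ?_)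
    have hj' := Finset.mem_range.mp hj
    have hq1 : qq M M / qq M (M - 1 - j) = gg M j := by
      rw [div_eq_iff (qq_ne M _), qq_prod' M j hj', gg]; ring
    have hq2 : qq M M / qq M (M + 1 + j) = 1 / hh M j := by
      have := hh_ne M j
      have h5 := qq_ne M (M + 1 + j)
      rw [div_eq_div_iff h5 this, qq_prod M j, hh]; ring
    rw [frac1 M j hj', frac2 M j, mm_symm M j hj', mm_prod M j, hq1, hq2, ww]
    ring

/-- exact form of `T Ṽ³ Π = 3 Ũ` -/
lemma T_exact (M : ℕ) :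
    (RR (2 * M) / (2 * (M : ℚ) + 1)) * (Vt M ^ 3 * (mm M M * qq M M)) = 3 * Ut M := by
  have hc := WW_cc (2 * M)
  have hV := V_eq M
  have hU := U_eq M
  have hN : 2 * (M : ℚ) + 1 ≠ 0 := by positivity
  have hm := mm_ne M M (by omega)
  push_cast at hc
  rw [hV] at hc
  have hR : RR (2 * M) / (2 * (M : ℚ) + 1) = 24 * (2 * (M : ℚ) + 1) * cc (2 * M + 1) ^ 3
      * AA (2 * M) := by
    unfold RR
    push_cast
    field_simp
  rw [hR]
  have hm2 : mm M M ^ 2 ≠ 0 := pow_ne_zero 2 hm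
  apply mul_left_cancel₀ hm2
  have hc3 : (cc (2 * M + 1) * (mm M M * Vt M)) ^ 3 = (1 / 2) ^ 3 := by rw [hc]
  calc mm M M ^ 2 * (24 * (2 * (M : ℚ) + 1) * cc (2 * M + 1) ^ 3 * AA (2 * M)
        * (Vt M ^ 3 * (mm M M * qq M M)))
      = 24 * (cc (2 * M + 1) * (mm M M * Vt M)) ^ 3 * ((2 * (M : ℚ) + 1) * AA (2 * M) * qq M M) := by
        ring
    _ = _ := by rw [hc3, hU]; ring

section

variable {p : ℕ} (hp : p.Prime) (hp2 : p ≠ 2) {M : ℕ}
  (hα : ∀ i : ℕ, 1 ≤ i → i ≤ 2 * M → D p 1 ((2 * (M : ℚ) + 1) / (i : ℚ)))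

set_option linter.unusedSectionVars false

include hp hα

lemma aa_D (j : ℕ) (hj : j < M) : D p 1 (aa M j) := by
  have := hα (j + 1) (by omega) (by omega)
  unfold aa
  push_cast at this
  exact this

lemma xx_D (l : ℕ) (hl : l < M) : D p 1 (xx M l) := by
  unfold xx
  exact hα (M - l) (by omega) (by omega)

lemma yy_D (l : ℕ) (hl : l < M) : D p 1 (yy M l) := by
  have := hα (M + 1 + l) (by omega) (by omega)
  unfold yy
  push_cast at this
  exact this

omit hp hα in
lemma xy_rel (l : ℕ) (hl : l < M) : xx M l + yy M l = xx M l * yy M l := by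
  unfold xx yy
  have h1 : ((M - l : ℕ) : ℚ) = (M : ℚ) - l := by rw [Nat.cast_sub (by omega)]
  have h2 : (0 : ℚ) < ((M - l : ℕ) : ℚ) := by
    have : 0 < M - l := by omega
    exact_mod_cast this
  rw [h1] at h2 ⊢
  have h3 := h2.ne'
  have h4 : (M : ℚ) + 1 + l ≠ 0 := by positivity
  field_simp
  ring

def XX (M j : ℕ) : ℚ := ∑ l ∈ range (j + 1), xx M l
def QQ (M j : ℕ) : ℚ := ∑ l ∈ range (j + 1), xx M l ^ 2

lemma XX_D (j : ℕ) (hj : j < M) : D p 1 (XX M j) := by
  unfold XX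
  exact D.sum hp _ _ (fun l hl => xx_D hp hα l (by have := Finset.mem_range.mp hl; omega))

lemma QQ_D (j : ℕ) (hj : j < M) : D p 2 (QQ M j) := by
  unfold QQ
  refine D.sum hp _ _ (fun l hl => ?_)
  have := xx_D hp hα l (by have := Finset.mem_range.mp hl; omega)
  rw [pow_two]
  exact this.mul hp this

lemma gg_congr (j : ℕ) (hj : j < M) : D p 2 (gg M j - (1 + XX M j)) := by
  have := D.prod_one_add hp (m := 1) (range (j + 1)) (fun l => xx M l)
    (fun l hl => xx_D hp hα l (by have := Finset.mem_range.mp hl; omega))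
  unfold gg XX
  rw [← sub_sub]
  exact this

lemma ww_congr (j : ℕ) (hj : j < M) : D p 2 (ww M j - (1 + XX M j)) := by
  have h1 := D.prod_one_add hp (m := 1) (range (j + 1)) (fun l => - yy M l)
    (fun l hl => (yy_D hp hα l (by have := Finset.mem_range.mp hl; omega)).neg)
  have h2 : ww M j = ∏ l ∈ range (j + 1), (1 + - yy M l) := by
    unfold ww
    exact Finset.prod_congr rfl (fun l _ => by ring)
  have h3 : ww M j - (1 + XX M j) = (∏ l ∈ range (j + 1), (1 + - yy M l) - 1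
      - ∑ l ∈ range (j + 1), - yy M l) - ∑ l ∈ range (j + 1), (xx M l * yy M l) := by
    have : ∑ l ∈ range (j + 1), (xx M l * yy M l) = ∑ l ∈ range (j + 1), (xx M l + yy M l) :=
      Finset.sum_congr rfl (fun l hl =>
        (xy_rel l (by have := Finset.mem_range.mp hl; omega)).symm)
    rw [this, Finset.sum_add_distrib, h2, Finset.sum_neg_distrib, XX]
    ring
  rw [h3]
  refine D.sub hp h1 (D.sum hp _ _ (fun l hl => ?_))
  have hl' : l < M := by have := Finset.mem_range.mp hl; omega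
  exact (xx_D hp hα l hl').mul hp (yy_D hp hα l hl')

lemma gh_congr (j : ℕ) (hj : j < M) : D p 3 (gg M j * hh M j - (1 - 2 * QQ M j)) := by
  have h1 : gg M j * hh M j = ∏ l ∈ range (j + 1), (1 + 2 * (xx M l * yy M l)) := by
    unfold gg hh
    rw [← Finset.prod_mul_distrib]
    refine Finset.prod_congr rfl (fun l hl => ?_)
    have := xy_rel (M := M) l (by have := Finset.mem_range.mp hl; omega)
    linear_combination this
  have h2 := D.prod_one_add hp (m := 2) (range (j + 1)) (fun l => 2 * (xx M l * yy M l))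
    (fun l hl => by
      have hl' : l < M := by have := Finset.mem_range.mp hl; omega
      have h := (xx_D hp hα l hl').mul hp (yy_D hp hα l hl')
      rw [two_mul]
      exact D.add hp h h)
  have h3 : gg M j * hh M j - (1 - 2 * QQ M j)
      = (∏ l ∈ range (j + 1), (1 + 2 * (xx M l * yy M l)) - 1
        - ∑ l ∈ range (j + 1), 2 * (xx M l * yy M l))
        + 2 * ∑ l ∈ range (j + 1), xx M l * (xx M l * yy M l) := by
    have : ∑ l ∈ range (j + 1), xx M l * (xx M l * yy M l)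
        = ∑ l ∈ range (j + 1), (xx M l ^ 2 + xx M l * yy M l) :=
      Finset.sum_congr rfl (fun l hl => by
        have h := xy_rel (M := M) l (by have := Finset.mem_range.mp hl; omega)
        linear_combination (-(xx M l)) * h)
    rw [this, Finset.sum_add_distrib, h1, ← Finset.mul_sum, QQ]
    ring
  rw [h3]
  refine D.add hp (h2.mono (by norm_num)) ?_
  have h4 : D p 3 (∑ l ∈ range (j + 1), xx M l * (xx M l * yy M l)) := by
    refine D.sum hp _ _ (fun l hl => ?_)
    have hl' : l < M := by have := Finset.mem_range.mp hl; omega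
    have h := (xx_D hp hα l hl').mul hp ((xx_D hp hα l hl').mul hp (yy_D hp hα l hl'))
    simpa using h
  rw [two_mul]
  exact D.add hp h4 h4

include hp2

/-- the main expansion -/
theorem main_expansion :
    D p 4 (RR (2 * M) / (2 * (M : ℚ) + 1)
      - 3 * (1 + 2 * (∑ j ∈ range M, aa M j ^ 2) + ∑ j ∈ range M, aa M j * QQ M j)) := by
  set s : ℚ := ∑ j ∈ range M, aa M j ^ 2 with hs
  set κ : ℚ := ∑ j ∈ range M, aa M j * QQ M j with hκ
  set P : ℚ := ∑ j ∈ range M, aa M j ^ 2 / 2 * (1 + XX M j) with hP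
  have hsD : D p 2 s := by
    refine D.sum hp _ _ (fun j hj => ?_)
    have := aa_D hp hα j (Finset.mem_range.mp hj)
    rw [pow_two]; exact this.mul hp this
  have hκD : D p 3 κ := by
    refine D.sum hp _ _ (fun j hj => ?_)
    have h1 := aa_D hp hα j (Finset.mem_range.mp hj)
    have h2 := QQ_D hp hα j (Finset.mem_range.mp hj)
    simpa using h1.mul hp h2
  have hPD : D p 2 P := by
    refine D.sum hp _ _ (fun j hj => ?_)
    have h1 := aa_D hp hα j (Finset.mem_range.mp hj)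
    have h2 := XX_D hp hα j (Finset.mem_range.mp hj)
    have h3 : D p 2 (aa M j ^ 2 / 2) := by
      rw [pow_two]; exact D.half hp hp2 (h1.mul hp h1)
    exact D.mul0 hp h3 (D.add hp (D.one hp) (h2.mono (by norm_num)))
  -- V
  have hV : D p 4 (Vt M - (1 + -P)) := by
    have e : Vt M - (1 + -P) = ∑ j ∈ range M, (ww M j * (aa M j / (aa M j - 2)
        + aa M j / (aa M j + 2)) - (-(aa M j ^ 2 / 2) * (1 + XX M j))) := by
      rw [Finset.sum_sub_distrib, Vt, hP]
      have : ∑ j ∈ range M, -(aa M j ^ 2 / 2) * (1 + XX M j)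
        = - ∑ j ∈ range M, aa M j ^ 2 / 2 * (1 + XX M j) := by
        rw [← Finset.sum_neg_distrib]
        exact Finset.sum_congr rfl (fun j _ => by ring)
      rw [this]; ring
    rw [e]
    refine D.sum hp _ _ (fun j hj => ?_)
    have hj' := Finset.mem_range.mp hj
    exact vterm hp hp2 (aa_D hp hα j hj') (ww_congr hp hα j hj') (XX_D hp hα j hj')
  -- U
  have hU : D p 4 (Ut M - (1 + (s - 3 * P + κ))) := by
    have e : Ut M - (1 + (s - 3 * P + κ)) = ∑ j ∈ range M, (ww M j ^ 2 *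
        (aa M j / (aa M j - 2) * gg M j + aa M j / (aa M j + 2) / hh M j)
        - (-(aa M j ^ 2 / 2) * (1 + 3 * XX M j) + aa M j * QQ M j)) := by
      rw [Finset.sum_sub_distrib, Finset.sum_add_distrib, Ut, hP, hs, hκ]
      have : ∑ j ∈ range M, -(aa M j ^ 2 / 2) * (1 + 3 * XX M j)
        = ∑ j ∈ range M, aa M j ^ 2 - 3 * ∑ j ∈ range M, aa M j ^ 2 / 2 * (1 + XX M j) := by
        rw [Finset.mul_sum, ← Finset.sum_sub_distrib]
        exact Finset.sum_congr rfl (fun j _ => by ring)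
      rw [this]; ring
    rw [e]
    refine D.sum hp _ _ (fun j hj => ?_)
    have hj' := Finset.mem_range.mp hj
    exact theta_term hp hp2 (aa_D hp hα j hj') (XX_D hp hα j hj') (QQ_D hp hα j hj')
      (ww_congr hp hα j hj') (gg_congr hp hα j hj') (gh_congr hp hα j hj')
  -- Pi
  have hPi : D p 4 (mm M M * qq M M - (1 + -s)) := by
    rw [Pi_eq]
    have := D.prod_one_add hp (m := 2) (range M) (fun i => -(aa M i ^ 2)) (fun j hj => by
      have := aa_D hp hα j (Finset.mem_range.mp hj)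
      rw [pow_two]; exact (this.mul hp this).neg)
    rw [Finset.sum_neg_distrib, ← hs] at this
    rw [← sub_sub]
    exact this
  -- combine
  have hT := T_exact M
  set T : ℚ := RR (2 * M) / (2 * (M : ℚ) + 1) with hTdef
  have hVV : D p 4 (Vt M * Vt M - (1 + (-P + -P))) :=
    mul_congr_one (m := 2) hp hV hV hPD.neg hPD.neg
  have hVVV : D p 4 (Vt M * Vt M * Vt M - (1 + ((-P + -P) + -P))) :=
    mul_congr_one (m := 2) hp hVV hV (D.add hp hPD.neg hPD.neg) hPD.neg
  have hall : D p 4 (Vt M * Vt M * Vt M * (mm M M * qq M M) - (1 + (((-P + -P) + -P) + -s))) :=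
    mul_congr_one (m := 2) hp hVVV hPi (D.add hp (D.add hp hPD.neg hPD.neg) hPD.neg) hsD.neg
  have h2s : D p 2 (2 * s + κ) := by
    rw [two_mul]
    exact D.add hp (D.add hp hsD hsD) (hκD.mono (by norm_num))
  have hsmall : D p 2 (((-P + -P) + -P) + -s) :=
    D.add hp (D.add hp (D.add hp hPD.neg hPD.neg) hPD.neg) hsD.neg
  have h11 : D p 4 ((1 + (2 * s + κ)) - (1 + (2 * s + κ))) := by
    rw [sub_self]; exact D.zero' hp 4
  have hprod := mul_congr_one (m := 2) hp h11 hall h2s hsmall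
  -- unit
  have hunit : D p 1 (Vt M ^ 3 * (mm M M * qq M M) - 1) := by
    have : Vt M ^ 3 * (mm M M * qq M M) - 1
      = (Vt M * Vt M * Vt M * (mm M M * qq M M) - (1 + (((-P + -P) + -P) + -s)))
        + (((-P + -P) + -P) + -s) := by ring
    rw [this]
    exact D.add hp (hall.mono (by norm_num)) (hsmall.mono (by norm_num))
  apply D.cancel hp hunit
  have e : (T - 3 * (1 + 2 * s + κ)) * (Vt M ^ 3 * (mm M M * qq M M))
      = 3 * ((Ut M - (1 + (s - 3 * P + κ)))
        - ((1 + (2 * s + κ)) * (Vt M * Vt M * Vt M * (mm M M * qq M M))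
          - (1 + ((2 * s + κ) + (((-P + -P) + -P) + -s))))) := by
    have : (T - 3 * (1 + 2 * s + κ)) * (Vt M ^ 3 * (mm M M * qq M M))
      = 3 * Ut M - 3 * (1 + 2 * s + κ) * (Vt M ^ 3 * (mm M M * qq M M)) := by
      rw [sub_mul, hT]
    rw [this]; ring
  rw [e]
  exact D.mul0' hp (by exact_mod_cast D.nat hp 3) (D.sub hp hU hprod)

end

end Pool.Agent.Lib_d8ed36
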