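import Pool.Agent.Lib_d8ed36.Main1
import Mathlib.NumberTheory.Bernoulli
import Mathlib.Tactic

set_option autoImplicit false
set_option linter.unusedSectionVars false

namespace Pool.Agent.Lib_d8ed36

open Finset

lemma D.of_mul_p {p : ℕ} (hp : p.Prime) {n : ℕ} {x : ℚ} (h : D p (n + 1) ((p : ℚ) * x)) :
    D p n x := by
  obtain ⟨a, b, hb, h1⟩ := h
  refine ⟨a, b, hb, ?_⟩
  have hp0 : (p : ℚ) ≠ 0 := by exact_mod_cast hp.ne_zero
  apply mul_left_cancel₀ hp0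
  rw [pow_succ] at h1
  linear_combination h1

lemma D.p_mul {p : ℕ} (hp : p.Prime) {n : ℕ} {x : ℚ} (h : D p n x) :
    D p (n + 1) ((p : ℚ) * x) := by
  have := (D.ppow' hp).mul hp h
  rwa [add_comm] at this

/-- generalized harmonic numbers -/
def Hr (r n : ℕ) : ℚ := ∑ i ∈ range n, 1 / ((i : ℚ) + 1) ^ r

lemma Hr_succ (r n : ℕ) : Hr r (n + 1) = Hr r n + 1 / ((n : ℚ) + 1) ^ r := by
  unfold Hr; rw [Finset.sum_range_succ]

lemma Hr_zero (r : ℕ) : Hr r 0 = 0 := by simp [Hr]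

/-- `∑_{t ≤ M} H_t / t^2` -/
def X1 (M : ℕ) : ℚ := ∑ t ∈ range M, Hr 1 (t + 1) / ((t : ℚ) + 1) ^ 2

/-- `∑_{t ≤ M} H_{2t} / t^2` -/
def Y1 (M : ℕ) : ℚ := ∑ t ∈ range M, Hr 1 (2 * (t + 1)) / ((t : ℚ) + 1) ^ 2

/-- `∑_{k < 2M+1} H_{k-1}/k^2` -/
def Zs (M : ℕ) : ℚ := ∑ k ∈ range (2 * M), Hr 1 k / ((k : ℚ) + 1) ^ 2

/-- `∑_{t ≤ M} (H_M - H_{M-t})/t^2`, in the shape of a double sum -/
def Ks (M : ℕ) : ℚ := ∑ t ∈ range M, (Hr 1 M - Hr 1 (M - (t + 1))) / ((t : ℚ) + 1) ^ 2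

/-- partial fraction: `∑_{i+t=n} 1/(i t^2)` -/
lemma conv_sum (n : ℕ) : ∑ t ∈ range n, (1 / (((n - t : ℕ) : ℚ))) / ((t : ℚ) + 1) ^ 2
    = Hr 2 n / ((n : ℚ) + 1) + 2 * Hr 1 n / ((n : ℚ) + 1) ^ 2 := by
  have h1 : ∀ t ∈ range n, (1 / (((n - t : ℕ) : ℚ))) / ((t : ℚ) + 1) ^ 2
      = (1 / ((t : ℚ) + 1) ^ 2) / ((n : ℚ) + 1) + (1 / ((t : ℚ) + 1) ^ 1) / ((n : ℚ) + 1) ^ 2
        + (1 / (((n - t : ℕ) : ℚ))) / ((n : ℚ) + 1) ^ 2 := by
    intro t ht
    have ht' := Finset.mem_range.mp ht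
    have h2 : ((n - t : ℕ) : ℚ) = (n : ℚ) - t := by rw [Nat.cast_sub (by omega)]
    have h3 : (0 : ℚ) < ((n - t : ℕ) : ℚ) := by
      have : 0 < n - t := by omega
      exact_mod_cast this
    rw [h2] at h3 ⊢
    have h4 := h3.ne'
    have h5 : (t : ℚ) + 1 ≠ 0 := by positivity
    have h6 : (n : ℚ) + 1 ≠ 0 := by positivity
    field_simp
    ring
  rw [Finset.sum_congr rfl h1, Finset.sum_add_distrib, Finset.sum_add_distrib,
    ← Finset.sum_div, ← Finset.sum_div, ← Finset.sum_div]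
  have h2 : ∑ t ∈ range n, (1 / (((n - t : ℕ) : ℚ))) = Hr 1 n := by
    unfold Hr
    rw [← Finset.sum_range_reflect]
    refine Finset.sum_congr rfl (fun t ht => ?_)
    have ht' := Finset.mem_range.mp ht
    have : ((n - (n - 1 - t) : ℕ) : ℚ) = (t : ℚ) + 1 := by
      rw [show n - (n - 1 - t) = t + 1 by omega]; push_cast; ring
    rw [this, pow_one]
  rw [h2]
  unfold Hr
  ring

/-- exact evaluation `K = 2 H^{(3)} - ∑ H_t/t^2` -/
lemma Ks_eq (M : ℕ) : Ks M = 2 * Hr 3 M - X1 M := by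
  -- D(M) = ∑ H_{M-t}/t^2
  have hD : ∀ n : ℕ, ∑ t ∈ range n, Hr 1 (n - (t + 1)) / ((t : ℚ) + 1) ^ 2
      = Hr 1 n * Hr 2 n + X1 n - 2 * Hr 3 n := by
    intro n
    induction n with
    | zero => simp [Hr, X1]
    | succ n ih =>
      have h1 : ∑ t ∈ range (n + 1), Hr 1 (n + 1 - (t + 1)) / ((t : ℚ) + 1) ^ 2
          = ∑ t ∈ range n, Hr 1 (n - (t + 1)) / ((t : ℚ) + 1) ^ 2
            + ∑ t ∈ range n, (1 / (((n - t : ℕ) : ℚ))) / ((t : ℚ) + 1) ^ 2 := by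
        rw [Finset.sum_range_succ, ← Finset.sum_add_distrib]
        rw [show n + 1 - (n + 1) = 0 by omega, Hr_zero, zero_div, add_zero]
        refine Finset.sum_congr rfl (fun t ht => ?_)
        have ht' := Finset.mem_range.mp ht
        rw [show n + 1 - (t + 1) = (n - (t + 1)) + 1 by omega, Hr_succ]
        have : ((n - (t + 1) : ℕ) : ℚ) + 1 = ((n - t : ℕ) : ℚ) := by
          rw [show n - t = (n - (t + 1)) + 1 by omega]; push_cast; ring
        rw [this, pow_one]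
        ring
      rw [h1, ih, conv_sum]
      have hx : X1 (n + 1) = X1 n + Hr 1 (n + 1) / ((n : ℚ) + 1) ^ 2 := by
        unfold X1; rw [Finset.sum_range_succ]
      rw [hx, Hr_succ, Hr_succ, Hr_succ]
      have h6 : (n : ℚ) + 1 ≠ 0 := by positivity
      field_simp
      ring
  have h2 : Ks M = Hr 1 M * Hr 2 M - ∑ t ∈ range M, Hr 1 (M - (t + 1)) / ((t : ℚ) + 1) ^ 2 := by
    unfold Ks
    have : Hr 2 M = ∑ t ∈ range M, 1 / ((t : ℚ) + 1) ^ 2 := rfl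
    rw [this, Finset.mul_sum, ← Finset.sum_sub_distrib]
    exact Finset.sum_congr rfl (fun t _ => by ring)
  rw [h2, hD]
  ring

/-- `∑_{k<m} (-1)^k C(m,k+1)/(k+1) = H_m` -/
lemma alt_harm (m : ℕ) :
    ∑ k ∈ range m, (-1) ^ k * (((m.choose (k + 1)) : ℕ) : ℚ) / ((k : ℚ) + 1) = Hr 1 m := by
  induction m with
  | zero => simp [Hr]
  | succ m ih =>
    have h0 : ∑ k ∈ range (m + 1), (-1) ^ k * (((m.choose (k + 1)) : ℕ) : ℚ) / ((k : ℚ) + 1)
        = Hr 1 m := by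
      rw [Finset.sum_range_succ, ih, Nat.choose_eq_zero_of_lt (by omega : m < m + 1)]
      simp
    have h1 : ∑ k ∈ range (m + 1), (-1) ^ k * ((((m + 1).choose (k + 1)) : ℕ) : ℚ) / ((k : ℚ) + 1)
        = ∑ k ∈ range (m + 1), (-1) ^ k * (((m.choose (k + 1)) : ℕ) : ℚ) / ((k : ℚ) + 1)
        + ∑ k ∈ range (m + 1), (-1) ^ k * ((((m + 1).choose (k + 1)) : ℕ) : ℚ) / ((m : ℚ) + 1) := by
      rw [← Finset.sum_add_distrib]
      refine Finset.sum_congr rfl (fun k _ => ?_)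
      have hk : (k : ℚ) + 1 ≠ 0 := by positivity
      have hm : (m : ℚ) + 1 ≠ 0 := by positivity
      have e1 : ((((m + 1).choose (k + 1)) : ℕ) : ℚ)
          = ((m.choose k : ℕ) : ℚ) + ((m.choose (k + 1) : ℕ) : ℚ) := by
        rw [Nat.choose_succ_succ]; push_cast; ring
      have e2 : ((m : ℚ) + 1) * ((m.choose k : ℕ) : ℚ)
          = ((((m + 1).choose (k + 1)) : ℕ) : ℚ) * ((k : ℚ) + 1) := by
        exact_mod_cast Nat.add_one_mul_choose_eq m k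
      have e3 : ((m.choose k : ℕ) : ℚ)
          = ((((m + 1).choose (k + 1)) : ℕ) : ℚ) * ((k : ℚ) + 1) / ((m : ℚ) + 1) := by
        rw [eq_div_iff hm]; linear_combination e2
      have e4 : ((((m + 1).choose (k + 1)) : ℕ) : ℚ) / ((k : ℚ) + 1)
          = ((m.choose (k + 1) : ℕ) : ℚ) / ((k : ℚ) + 1)
            + ((((m + 1).choose (k + 1)) : ℕ) : ℚ) / ((m : ℚ) + 1) := by
        conv_lhs => rw [e1, e3]
        field_simp
        ring
      rw [mul_div_assoc, e4]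
      ring
    rw [h1, h0, Hr_succ, ← Finset.sum_div]
    congr 1
    rw [pow_one]
    congr 1
    have h2 := Int.alternating_sum_range_choose (n := m + 1)
    rw [Finset.sum_range_succ', if_neg (by omega)] at h2
    have h3 : ((∑ k ∈ range (m + 1), (-1) ^ (k + 1) * (((m + 1).choose (k + 1) : ℕ) : ℤ)
        + (-1) ^ 0 * (((m + 1).choose 0 : ℕ) : ℤ) : ℤ) : ℚ) = 0 := by
      rw [h2]; simp
    push_cast at h3
    simp only [pow_succ, Nat.choose_zero_right, Nat.cast_one, mul_one] at h3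
    have h4 : ∑ x ∈ range (m + 1), (-1 : ℚ) ^ x * -1 * (((m + 1).choose (x + 1) : ℕ) : ℚ)
        = - ∑ x ∈ range (m + 1), (-1 : ℚ) ^ x * (((m + 1).choose (x + 1) : ℕ) : ℚ) := by
      rw [← Finset.sum_neg_distrib]
      exact Finset.sum_congr rfl (fun x _ => by ring)
    rw [h4] at h3
    linarith

end Pool.Agent.Lib_d8ed36
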