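import Pool.Agent.Lib_d8ed36.PLevel
import Mathlib.Tactic

set_option autoImplicit false
set_option linter.unusedSectionVars false

namespace Pool.Agent.Lib_d8ed36

open Finset

lemma split_reflect (M : ℕ) (f : ℕ → ℚ) :
    ∑ k ∈ range (2 * M), f k = ∑ t ∈ range M, (f t + f (2 * M - 1 - t)) := by
  have h1 : ∑ k ∈ range (M + M), f k
      = ∑ k ∈ range M, f k + ∑ k ∈ range M, f (M + k) := Finset.sum_range_add _ _ _
  rw [show 2 * M = M + M by ring, h1, Finset.sum_add_distrib]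
  congr 1
  rw [← Finset.sum_range_reflect]
  refine Finset.sum_congr rfl (fun t ht => ?_)
  have := Finset.mem_range.mp ht
  congr 1
  omega

lemma split_parity (M : ℕ) (f : ℕ → ℚ) :
    ∑ k ∈ range (2 * M), f k = ∑ t ∈ range M, (f (2 * t + 1) + f (2 * (M - 1 - t))) := by
  have h1 : ∀ n : ℕ, ∑ k ∈ range (2 * n), f k = ∑ t ∈ range n, (f (2 * t + 1) + f (2 * t)) := by
    intro n
    induction n with
    | zero => simp
    | succ n ih =>
      rw [show 2 * (n + 1) = 2 * n + 1 + 1 by ring, Finset.sum_range_succ, Finset.sum_range_succ,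
        Finset.sum_range_succ, ih]
      ring
  rw [h1, Finset.sum_add_distrib, Finset.sum_add_distrib]
  congr 1
  exact (Finset.sum_range_reflect (fun t => f (2 * t)) M).symm

section

variable {p : ℕ} (hp : p.Prime) {M : ℕ} (hpM : p = 2 * M + 1)

include hp hpM

lemma Dinv (s : ℕ) (h1 : 1 ≤ s) (h2 : s ≤ 2 * M) : D p 0 (1 / (s : ℚ)) := by
  refine (D.one hp).div_nat hp ?_
  intro h
  have := Nat.le_of_dvd (by omega) h
  omega

lemma Dinv1 (i : ℕ) (hi : i < 2 * M) : D p 0 (1 / ((i : ℚ) + 1)) := by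
  have := Dinv hp hpM (i + 1) (by omega) (by omega)
  push_cast at this
  exact this

lemma Dinvr (r i : ℕ) (hi : i < 2 * M) : D p 0 (1 / ((i : ℚ) + 1) ^ r) := by
  have := (Dinv1 hp hpM i hi).pow hp r
  rwa [div_pow, one_pow] at this

lemma Hr_D0 (r n : ℕ) (hn : n ≤ 2 * M) : D p 0 (Hr r n) := by
  unfold Hr
  exact D.sum hp _ _ (fun i hi => Dinvr hp hpM r i (by have := Finset.mem_range.mp hi; omega))

omit hp in
lemma castp : (p : ℚ) = 2 * (M : ℚ) + 1 := by rw [hpM]; push_cast; ring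

omit hp in
lemma castc (t : ℕ) (ht : t < 2 * M) : ((2 * M - 1 - t : ℕ) : ℚ) + 1 = (p : ℚ) - ((t : ℚ) + 1) := by
  rw [castp hpM, Nat.sub_sub, Nat.cast_sub (by omega)]
  push_cast
  ring

lemma D_unit2 {n : ℕ} {x : ℚ} (h : D p n (2 * x)) : D p n x := by
  have h2 : ¬ p ∣ 2 := by
    intro h
    have := Nat.le_of_dvd (by omega) h
    have := hp.two_le
    omega
  have := h.div_nat hp h2
  have e : 2 * x / ((2 : ℕ) : ℚ) = x := by push_cast; ring
  rwa [e] at this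

/-- `D 0` for the complementary element -/
lemma Dinvc (t : ℕ) (ht : t < 2 * M) : D p 0 (1 / ((p : ℚ) - ((t : ℚ) + 1))) := by
  rw [← castc hpM t ht]
  exact Dinv1 hp hpM (2 * M - 1 - t) (by omega)

omit hp in
lemma comp_ne (t : ℕ) (ht : t < 2 * M) : (p : ℚ) - ((t : ℚ) + 1) ≠ 0 := by
  rw [← castc hpM t ht]
  positivity

/-- pairing bound -/
lemma H1_full : D p 1 (Hr 1 (2 * M)) := by
  apply D_unit2 hp hpM
  have h1 : 2 * Hr 1 (2 * M) = ∑ t ∈ range (2 * M),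
      (p : ℚ) * ((1 / ((t : ℚ) + 1)) * (1 / ((p : ℚ) - ((t : ℚ) + 1)))) := by
    have h2 : Hr 1 (2 * M) = ∑ t ∈ range (2 * M), 1 / ((p : ℚ) - ((t : ℚ) + 1)) := by
      unfold Hr
      rw [← Finset.sum_range_reflect]
      refine Finset.sum_congr rfl (fun t ht => ?_)
      rw [castc hpM t (Finset.mem_range.mp ht), pow_one]
    have h3 : Hr 1 (2 * M) = ∑ t ∈ range (2 * M), 1 / ((t : ℚ) + 1) := by
      unfold Hr
      exact Finset.sum_congr rfl (fun t _ => by rw [pow_one])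
    rw [two_mul]
    nth_rewrite 1 [h3]
    rw [h2, ← Finset.sum_add_distrib]
    refine Finset.sum_congr rfl (fun t ht => ?_)
    have h4 := comp_ne hpM t (Finset.mem_range.mp ht)
    have h5 : (t : ℚ) + 1 ≠ 0 := by positivity
    field_simp
    ring
  rw [h1]
  refine D.sum hp _ _ (fun t ht => ?_)
  have ht' := Finset.mem_range.mp ht
  exact D.mul0 hp (D.ppow' hp) (D.mul0 hp (Dinv1 hp hpM t ht') (Dinvc hp hpM t ht'))

lemma H3_full : D p 1 (Hr 3 (2 * M)) := by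
  apply D_unit2 hp hpM
  have h1 : 2 * Hr 3 (2 * M) = ∑ t ∈ range (2 * M),
      (p : ℚ) * ((1 / ((t : ℚ) + 1) ^ 3) * (1 / ((p : ℚ) - ((t : ℚ) + 1))) ^ 3
        * ((p : ℚ) ^ 2 - 3 * p * ((t : ℚ) + 1) + 3 * ((t : ℚ) + 1) ^ 2)) := by
    have h2 : Hr 3 (2 * M) = ∑ t ∈ range (2 * M), 1 / ((p : ℚ) - ((t : ℚ) + 1)) ^ 3 := by
      unfold Hr
      rw [← Finset.sum_range_reflect]
      refine Finset.sum_congr rfl (fun t ht => ?_)
      rw [castc hpM t (Finset.mem_range.mp ht)]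
    have h3 : Hr 3 (2 * M) = ∑ t ∈ range (2 * M), 1 / ((t : ℚ) + 1) ^ 3 := rfl
    rw [two_mul]
    nth_rewrite 1 [h3]
    rw [h2, ← Finset.sum_add_distrib]
    refine Finset.sum_congr rfl (fun t ht => ?_)
    have h4 := comp_ne hpM t (Finset.mem_range.mp ht)
    have h5 : (t : ℚ) + 1 ≠ 0 := by positivity
    field_simp
    ring
  rw [h1]
  refine D.sum hp _ _ (fun t ht => ?_)
  have ht' := Finset.mem_range.mp ht
  refine D.mul0 hp (D.ppow' hp) (D.mul0 hp (D.mul0 hp (Dinvr hp hpM 3 t ht')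
    ((Dinvc hp hpM t ht').pow hp 3)) ?_)
  have : D p 0 (((((p : ℤ)) ^ 2 - 3 * p * ((t : ℤ) + 1) + 3 * ((t : ℤ) + 1) ^ 2 : ℤ)) : ℚ) :=
    D.int hp _
  push_cast at this
  exact this

/-- (D2) -/
lemma rel2 : D p 3 (2 * Hr 1 (2 * M) + p * Hr 2 (2 * M)) := by
  have h1 : 2 * Hr 1 (2 * M) + p * Hr 2 (2 * M) = ∑ t ∈ range (2 * M),
      (p : ℚ) ^ 3 * ((1 / ((t : ℚ) + 1) ^ 3) * (1 / ((p : ℚ) - ((t : ℚ) + 1))))
      - p ^ 2 * Hr 3 (2 * M) := by
    have h2 : Hr 1 (2 * M) = ∑ t ∈ range (2 * M), 1 / ((p : ℚ) - ((t : ℚ) + 1)) := by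
      unfold Hr
      rw [← Finset.sum_range_reflect]
      refine Finset.sum_congr rfl (fun t ht => ?_)
      rw [castc hpM t (Finset.mem_range.mp ht), pow_one]
    have h3 : Hr 1 (2 * M) = ∑ t ∈ range (2 * M), 1 / ((t : ℚ) + 1) := by
      unfold Hr
      exact Finset.sum_congr rfl (fun t _ => by rw [pow_one])
    rw [two_mul]
    nth_rewrite 1 [h3]
    rw [h2]
    unfold Hr
    rw [Finset.mul_sum, Finset.mul_sum, ← Finset.sum_add_distrib, ← Finset.sum_add_distrib,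
      ← Finset.sum_sub_distrib]
    refine Finset.sum_congr rfl (fun t ht => ?_)
    have h4 := comp_ne hpM t (Finset.mem_range.mp ht)
    have h5 : (t : ℚ) + 1 ≠ 0 := by positivity
    field_simp
    ring
  rw [h1]
  refine D.sub hp (D.sum hp _ _ (fun t ht => ?_)) ?_
  · have ht' := Finset.mem_range.mp ht
    exact D.mul0 hp (D.ppow hp 3) (D.mul0 hp (Dinvr hp hpM 3 t ht') (Dinvc hp hpM t ht'))
  · exact (D.ppow hp 2).mul hp (H3_full hp hpM)

lemma mm_congr (k : ℕ) (hk : k ≤ 2 * M) : D p 2 (mm M k - (1 - p * Hr 1 k)) := by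
  have h1 : mm M k = ∏ i ∈ range k, (1 + -((p : ℚ) * (1 / ((i : ℚ) + 1)))) := by
    have : ∀ k : ℕ, mm M k = ∏ i ∈ range k, (1 + -((p : ℚ) * (1 / ((i : ℚ) + 1)))) := by
      intro k
      induction k with
      | zero => simp [mm]
      | succ k ih =>
        rw [Finset.prod_range_succ, ← ih, mm_succ, castp hpM]
        ring
    exact this k
  have h2 := D.prod_one_add hp (m := 1) (range k) (fun i => -((p : ℚ) * (1 / ((i : ℚ) + 1))))
    (fun i hi => by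
      have hi' := Finset.mem_range.mp hi
      exact (D.mul0 hp (D.ppow' hp) (Dinv1 hp hpM i (by omega))).neg)
  have h3 : mm M k - (1 - p * Hr 1 k) = ∏ i ∈ range k, (1 + -((p : ℚ) * (1 / ((i : ℚ) + 1)))) - 1
      - ∑ i ∈ range k, -((p : ℚ) * (1 / ((i : ℚ) + 1))) := by
    rw [h1, Finset.sum_neg_distrib, ← Finset.mul_sum]
    have : Hr 1 k = ∑ i ∈ range k, 1 / ((i : ℚ) + 1) := by
      unfold Hr
      exact Finset.sum_congr rfl (fun t _ => by rw [pow_one])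
    rw [this]; ring
  rw [h3]
  exact h2

/-- (D3) -/
lemma rel3 : D p 3 (Hr 1 (2 * M) - (p * Hr 2 (2 * M) - p ^ 2 * Zs M)) := by
  have h1 : Hr 1 (2 * M) = ∑ k ∈ range (2 * M), (p : ℚ) * (1 / ((k : ℚ) + 1) ^ 2) * mm M k := by
    have h := alt_harm (2 * M + 1)
    rw [Finset.sum_range_succ, Hr_succ] at h
    have e1 : ((-1 : ℚ)) ^ (2 * M) = 1 := by rw [pow_mul]; simp
    rw [e1, Nat.choose_self, pow_one] at h
    push_cast at h
    have h' : ∑ x ∈ range (2 * M), (-1 : ℚ) ^ x * (((2 * M + 1).choose (x + 1) : ℕ) : ℚ)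
        / ((x : ℚ) + 1) = Hr 1 (2 * M) := by linarith
    rw [← h']
    refine Finset.sum_congr rfl (fun k _ => ?_)
    have hk : (k : ℚ) + 1 ≠ 0 := by positivity
    have e2 : ((2 * M : ℕ) + 1 : ℚ) * (((2 * M).choose k : ℕ) : ℚ)
          = ((((2 * M + 1).choose (k + 1)) : ℕ) : ℚ) * ((k : ℚ) + 1) := by
        exact_mod_cast Nat.add_one_mul_choose_eq (2 * M) k
    unfold mm
    rw [castp hpM]
    push_cast at e2
    field_simp
    linear_combination -e2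
  have h2 : Hr 1 (2 * M) - (p * Hr 2 (2 * M) - p ^ 2 * Zs M)
      = ∑ k ∈ range (2 * M), (p : ℚ) * (1 / ((k : ℚ) + 1) ^ 2) * (mm M k - (1 - p * Hr 1 k)) := by
    rw [h1]
    unfold Zs
    have : Hr 2 (2 * M) = ∑ k ∈ range (2 * M), 1 / ((k : ℚ) + 1) ^ 2 := rfl
    rw [this, Finset.mul_sum, Finset.mul_sum, ← Finset.sum_sub_distrib, ← Finset.sum_sub_distrib]
    refine Finset.sum_congr rfl (fun k _ => ?_)
    ring
  rw [h2]
  refine D.sum hp _ _ (fun k hk => ?_)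
  have hk' := Finset.mem_range.mp hk
  exact (D.mul0 hp (D.ppow' hp) (Dinvr hp hpM 2 k hk')).mul hp (mm_congr hp hpM k (by omega))

/-- `3 H^{(2)}_{p-1} ≡ 2 p Z (mod p^2)` -/
lemma rel23 : D p 2 (3 * Hr 2 (2 * M) - 2 * p * Zs M) := by
  apply D.of_mul_p hp
  have h := D.sub hp (rel2 hp hpM) (D.add hp (rel3 hp hpM) (rel3 hp hpM))
  have e : 2 * Hr 1 (2 * M) + p * Hr 2 (2 * M)
      - ((Hr 1 (2 * M) - (p * Hr 2 (2 * M) - p ^ 2 * Zs M))
        + (Hr 1 (2 * M) - (p * Hr 2 (2 * M) - p ^ 2 * Zs M)))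
      = (p : ℚ) * (3 * Hr 2 (2 * M) - 2 * p * Zs M) := by ring
  rwa [e] at h

/-- (D1) -/
lemma rel1 : D p 2 (Hr 2 (2 * M) - (2 * Hr 2 M + 2 * p * Hr 3 M)) := by
  have h1 : Hr 2 (2 * M) - (2 * Hr 2 M + 2 * p * Hr 3 M)
      = ∑ t ∈ range M, (p : ℚ) ^ 2 * ((1 / ((t : ℚ) + 1) ^ 3)
        * (1 / ((p : ℚ) - ((t : ℚ) + 1))) ^ 2 * (3 * ((t : ℚ) + 1) - 2 * p)) := by
    unfold Hr
    rw [split_reflect, Finset.mul_sum, Finset.mul_sum, ← Finset.sum_add_distrib,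
      ← Finset.sum_sub_distrib]
    refine Finset.sum_congr rfl (fun t ht => ?_)
    have ht' : t < 2 * M := by have := Finset.mem_range.mp ht; omega
    rw [castc hpM t ht']
    have h4 := comp_ne hpM t ht'
    have h5 : (t : ℚ) + 1 ≠ 0 := by positivity
    field_simp
    ring
  rw [h1]
  refine D.sum hp _ _ (fun t ht => ?_)
  have ht' : t < 2 * M := by have := Finset.mem_range.mp ht; omega
  refine D.mul0 hp (D.ppow hp 2) (D.mul0 hp (D.mul0 hp (Dinvr hp hpM 3 t ht')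
    ((Dinvc hp hpM t ht').pow hp 2)) ?_)
  have : D p 0 (((3 * ((t : ℤ) + 1) - 2 * p : ℤ)) : ℚ) := D.int hp _
  push_cast at this
  exact this

/-- reflection of harmonic numbers mod `p` -/
lemma H_refl (j : ℕ) (hj : j ≤ 2 * M) : D p 1 (Hr 1 (2 * M - j) - Hr 1 j) := by
  induction j with
  | zero =>
    rw [Hr_zero, sub_zero, Nat.sub_zero]
    exact H1_full hp hpM
  | succ j ih =>
    have h1 := ih (by omega)
    have h2 : Hr 1 (2 * M - j) = Hr 1 (2 * M - (j + 1)) + 1 / ((p : ℚ) - ((j : ℚ) + 1)) := by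
      rw [show 2 * M - j = (2 * M - (j + 1)) + 1 by omega, Hr_succ, pow_one,
        ← castc hpM j (by omega), show 2 * M - (j + 1) = 2 * M - 1 - j by omega]
    have h4 := comp_ne hpM j (by omega)
    have h5 : (j : ℚ) + 1 ≠ 0 := by positivity
    have h3 : Hr 1 (2 * M - (j + 1)) - Hr 1 (j + 1) = (Hr 1 (2 * M - j) - Hr 1 j)
        - (p : ℚ) * ((1 / ((j : ℚ) + 1)) * (1 / ((p : ℚ) - ((j : ℚ) + 1)))) := by
      rw [h2, Hr_succ, pow_one]
      field_simp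
      ring
    rw [h3]
    refine D.sub hp h1 (D.mul0 hp (D.ppow' hp) (D.mul0 hp (Dinv1 hp hpM j (by omega))
      (Dinvc hp hpM j (by omega))))

/-- reflection for `x / s^2` -/
lemma refl_sq (t : ℕ) (ht : t < 2 * M) {x y : ℚ} (hx : D p 0 x) (hxy : D p 1 (x - y)) :
    D p 1 (x / ((p : ℚ) - ((t : ℚ) + 1)) ^ 2 - y / ((t : ℚ) + 1) ^ 2) := by
  have h4 := comp_ne hpM t ht
  have h5 : (t : ℚ) + 1 ≠ 0 := by positivity
  have e : x / ((p : ℚ) - ((t : ℚ) + 1)) ^ 2 - y / ((t : ℚ) + 1) ^ 2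
      = (x - y) * (1 / ((t : ℚ) + 1) ^ 2)
        + (p : ℚ) * (x * ((1 / ((t : ℚ) + 1) ^ 2) * (1 / ((p : ℚ) - ((t : ℚ) + 1))) ^ 2
          * (2 * ((t : ℚ) + 1) - p))) := by
    field_simp
    ring
  rw [e]
  refine D.add hp (D.mul0 hp hxy (Dinvr hp hpM 2 t ht)) (D.mul0 hp (D.ppow' hp) (D.mul0 hp hx
    (D.mul0 hp (D.mul0 hp (Dinvr hp hpM 2 t ht) ((Dinvc hp hpM t ht).pow hp 2)) ?_)))
  have : D p 0 (((2 * ((t : ℤ) + 1) - p : ℤ)) : ℚ) := D.int hp _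
  push_cast at this
  exact this

lemma full_sum : ∑ k ∈ range (2 * M), Hr 1 (k + 1) / ((k : ℚ) + 1) ^ 2
    = Zs M + Hr 3 (2 * M) := by
  unfold Zs
  have : Hr 3 (2 * M) = ∑ k ∈ range (2 * M), 1 / ((k : ℚ) + 1) ^ 3 := rfl
  rw [this, ← Finset.sum_add_distrib]
  refine Finset.sum_congr rfl (fun k _ => ?_)
  rw [Hr_succ]
  have h5 : (k : ℚ) + 1 ≠ 0 := by positivity
  field_simp

/-- (b) -/
lemma rel_b : D p 1 (2 * X1 M - (Zs M + Hr 3 M)) := by
  have h1 := full_sum hp hpM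
  rw [split_reflect] at h1
  have h2 : 2 * X1 M - (Zs M + Hr 3 M) = Hr 3 (2 * M)
      - ∑ t ∈ range M, (Hr 1 (2 * M - 1 - t + 1) / (((2 * M - 1 - t : ℕ) : ℚ) + 1) ^ 2
        - Hr 1 t / ((t : ℚ) + 1) ^ 2) := by
    have h3 : Hr 3 M = ∑ t ∈ range M, 1 / ((t : ℚ) + 1) ^ 3 := rfl
    have h4 : ∑ t ∈ range M, Hr 1 t / ((t : ℚ) + 1) ^ 2 = X1 M - Hr 3 M := by
      rw [h3, X1, ← Finset.sum_sub_distrib]
      refine Finset.sum_congr rfl (fun t _ => ?_)
      rw [Hr_succ]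
      have h5 : (t : ℚ) + 1 ≠ 0 := by positivity
      field_simp
      ring
    rw [Finset.sum_sub_distrib, h4]
    rw [Finset.sum_add_distrib] at h1
    have h6 : X1 M = ∑ t ∈ range M, Hr 1 (t + 1) / ((t : ℚ) + 1) ^ 2 := rfl
    rw [← h6] at h1
    linear_combination h1
  rw [h2]
  refine D.sub hp (H3_full hp hpM) (D.sum hp _ _ (fun t ht => ?_))
  have ht' : t < M := Finset.mem_range.mp ht
  rw [castc hpM t (by omega), show 2 * M - 1 - t + 1 = 2 * M - t by omega]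
  exact refl_sq hp hpM t (by omega) (Hr_D0 hp hpM 1 _ (by omega)) (H_refl hp hpM t (by omega))

/-- (c) -/
lemma rel_c : D p 1 (4 * Y1 M - (8 * Zs M + Hr 3 M)) := by
  have h1 := full_sum hp hpM
  rw [split_parity] at h1
  have h2 : 4 * Y1 M - (8 * Zs M + Hr 3 M) = 8 * (Hr 3 (2 * M)
      - ∑ t ∈ range M, (Hr 1 (2 * (M - 1 - t) + 1) / (((2 * (M - 1 - t) : ℕ) : ℚ) + 1) ^ 2
        - Hr 1 (2 * t + 1) / (((2 * t + 1 : ℕ) : ℚ) + 1) ^ 2)) := by
    have h3 : Hr 3 M = ∑ t ∈ range M, 1 / ((t : ℚ) + 1) ^ 3 := rfl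
    have h4 : ∑ t ∈ range M, Hr 1 (2 * t + 1) / (((2 * t + 1 : ℕ) : ℚ) + 1) ^ 2
        = Y1 M / 4 - Hr 3 M / 8 := by
      rw [h3, Y1, Finset.sum_div, Finset.sum_div, ← Finset.sum_sub_distrib]
      refine Finset.sum_congr rfl (fun t _ => ?_)
      rw [show 2 * (t + 1) = 2 * t + 1 + 1 by ring, Hr_succ 1 (2 * t + 1)]
      have h5 : (t : ℚ) + 1 ≠ 0 := by positivity
      push_cast
      rw [show (2 * (t : ℚ) + 1 + 1) = 2 * ((t : ℚ) + 1) by ring]
      field_simp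
      ring
    have h7 : ∑ t ∈ range M, Hr 1 (2 * t + 1 + 1) / (((2 * t + 1 : ℕ) : ℚ) + 1) ^ 2 = Y1 M / 4 := by
      rw [Y1, Finset.sum_div]
      refine Finset.sum_congr rfl (fun t _ => ?_)
      rw [show 2 * (t + 1) = 2 * t + 1 + 1 by ring]
      have h5 : (t : ℚ) + 1 ≠ 0 := by positivity
      push_cast
      rw [show (2 * (t : ℚ) + 1 + 1) = 2 * ((t : ℚ) + 1) by ring]
      field_simp
      ring
    rw [Finset.sum_sub_distrib, h4]
    rw [Finset.sum_add_distrib, h7] at h1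
    linear_combination 8 * h1
  rw [h2]
  refine D.mul0' hp (by exact_mod_cast D.nat hp 8)
    (D.sub hp (H3_full hp hpM) (D.sum hp _ _ (fun t ht => ?_)))
  have ht' : t < M := Finset.mem_range.mp ht
  have e1 : 2 * (M - 1 - t) = 2 * M - 1 - (2 * t + 1) := by omega
  rw [e1, castc hpM (2 * t + 1) (by omega),
    show 2 * M - 1 - (2 * t + 1) + 1 = 2 * M - (2 * t + 1) by omega]
  exact refl_sq hp hpM (2 * t + 1) (by omega) (Hr_D0 hp hpM 1 _ (by omega))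
    (H_refl hp hpM (2 * t + 1) (by omega))

/-- (a), inner statement -/
lemma rel_a_inner (n : ℕ) (hn : n ≤ M) :
    D p 1 (Hr 1 M - Hr 1 (M - n) + (2 * Hr 1 (2 * n) - Hr 1 n)) := by
  induction n with
  | zero => simp only [Nat.sub_zero, mul_zero, Hr_zero]; simpa using D.zero' hp 1
  | succ n ih =>
    have h1 := ih (by omega)
    have h2 : Hr 1 (M - n) = Hr 1 (M - (n + 1)) + 1 / ((M - n : ℕ) : ℚ) := by
      rw [show M - n = (M - (n + 1)) + 1 by omega, Hr_succ, pow_one]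
      push_cast
      rfl
    have h3 : ((M - n : ℕ) : ℚ) = (M : ℚ) - n := by rw [Nat.cast_sub (by omega)]
    have h4 : ((M - n : ℕ) : ℚ) ≠ 0 := by
      have : 0 < M - n := by omega
      exact_mod_cast this.ne'
    have h5 : ((2 * n + 1 : ℕ) : ℚ) ≠ 0 := by positivity
    have h6 : Hr 1 M - Hr 1 (M - (n + 1)) + (2 * Hr 1 (2 * (n + 1)) - Hr 1 (n + 1))
        = (Hr 1 M - Hr 1 (M - n) + (2 * Hr 1 (2 * n) - Hr 1 n))
          + (p : ℚ) * ((1 / ((M - n : ℕ) : ℚ)) * (1 / ((2 * n + 1 : ℕ) : ℚ))) := by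
      rw [h2, show 2 * (n + 1) = 2 * n + 1 + 1 by ring, Hr_succ, Hr_succ 1 (2 * n), Hr_succ 1 n,
        castp hpM, pow_one, pow_one, pow_one]
      rw [h3] at h4 ⊢
      have h7 : (n : ℚ) + 1 ≠ 0 := by positivity
      have h8 : (2 * (n : ℚ) + 1) ≠ 0 := by positivity
      push_cast
      rw [show (2 * (n : ℚ) + 1 + 1) = 2 * ((n : ℚ) + 1) by ring]
      field_simp
      ring
    rw [h6]
    exact D.add hp h1 (D.mul0 hp (D.ppow' hp) (D.mul0 hp (Dinv hp hpM _ (by omega) (by omega))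
      (Dinv hp hpM _ (by omega) (by omega))))

/-- (a) -/
lemma rel_a : D p 1 (Ks M + (2 * Y1 M - X1 M)) := by
  have h1 : Ks M + (2 * Y1 M - X1 M) = ∑ t ∈ range M,
      (Hr 1 M - Hr 1 (M - (t + 1)) + (2 * Hr 1 (2 * (t + 1)) - Hr 1 (t + 1)))
        * (1 / ((t : ℚ) + 1) ^ 2) := by
    unfold Ks Y1 X1
    rw [Finset.mul_sum, ← Finset.sum_sub_distrib, ← Finset.sum_add_distrib]
    exact Finset.sum_congr rfl (fun t _ => by ring)
  rw [h1]
  refine D.sum hp _ _ (fun t ht => ?_)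
  have ht' : t < M := Finset.mem_range.mp ht
  exact D.mul0 hp (rel_a_inner hp hpM (t + 1) (by omega)) (Dinvr hp hpM 2 t (by omega))

lemma D_natmul {n : ℕ} (c : ℕ) {x : ℚ} (h : D p n x) : D p n ((c : ℚ) * x) :=
  D.mul0' hp (D.nat hp c) h

/-- combination: `6 (2 H^{(2)}_M + p K) ≡ 7 p Z  (mod p^2)` -/
lemma combo6 : D p 2 (6 * (2 * Hr 2 M + p * Ks M) - 7 * p * Zs M) := by
  have ha := rel_a hp hpM
  have hb := rel_b hp hpM
  have hc := rel_c hp hpM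
  have hK := Ks_eq M
  -- 3h + 6Z = 0 mod p and 2K + 7Z = 0 mod p, (all multiplied by 4 or 2)
  -- 4K + 14 Z
  have h1 : D p 1 (4 * Ks M + 14 * Zs M) := by
    have e : 4 * Ks M + 14 * Zs M = (4 : ℕ) * (Ks M + (2 * Y1 M - X1 M))
        - ((2 : ℕ) * (4 * Y1 M - (8 * Zs M + Hr 3 M)) - (2 : ℕ) * (2 * X1 M - (Zs M + Hr 3 M))) := by
      push_cast; ring
    rw [e]
    exact D.sub hp (D_natmul hp hpM 4 ha) (D.sub hp (D_natmul hp hpM 2 hc) (D_natmul hp hpM 2 hb))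
  have h2 : D p 1 (2 * Ks M + 7 * Zs M) := by
    apply D_unit2 hp hpM
    have e : 2 * (2 * Ks M + 7 * Zs M) = 4 * Ks M + 14 * Zs M := by ring
    rwa [e]
  -- 3h - Z - 2K = 0
  have h3 : D p 1 (3 * Hr 3 M - Zs M - 2 * Ks M) := by
    have e : 3 * Hr 3 M - Zs M - 2 * Ks M = 2 * X1 M - (Zs M + Hr 3 M) := by
      rw [hK]; ring
    rwa [e]
  have r1 := rel1 hp hpM
  have r23 := rel23 hp hpM
  have e : 6 * (2 * Hr 2 M + p * Ks M) - 7 * p * Zs M
      = (2 : ℕ) * (3 * Hr 2 (2 * M) - 2 * p * Zs M)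
        - (6 : ℕ) * (Hr 2 (2 * M) - (2 * Hr 2 M + 2 * p * Hr 3 M))
        - (p : ℚ) * ((4 : ℕ) * (3 * Hr 3 M - Zs M - 2 * Ks M) + ((1 : ℕ) * (2 * Ks M + 7 * Zs M))) := by
    push_cast; ring
  rw [e]
  refine D.sub hp (D.sub hp (D_natmul hp hpM 2 r23) (D_natmul hp hpM 6 r1)) ?_
  exact D.p_mul hp (D.add hp (D_natmul hp hpM 4 h3) (D_natmul hp hpM 1 h2))

end

end Pool.Agent.Lib_d8ed36
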