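import Mathlib.Tactic
import Mathlib.Data.Rat.Defs
import Mathlib.Algebra.BigOperators.Ring.Finset
import Mathlib.Algebra.BigOperators.Intervals
import Mathlib.Data.Nat.Prime.Int

set_option autoImplicit false

namespace Pool.Agent.Lib_d8ed36

open Finset

/-- `D p n x` says that the rational number `x` lies in `p ^ n * ℤ_(p)`. -/
def D (p n : ℕ) (x : ℚ) : Prop :=
  ∃ a b : ℤ, ¬ (p : ℤ) ∣ b ∧ x * (b : ℚ) = (p : ℚ) ^ n * (a : ℚ)

variable {p : ℕ}

lemma D.zero' (hp : p.Prime) (n : ℕ) : D p n 0 := by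
  refine ⟨0, 1, ?_, by simp⟩
  intro h
  have := Int.eq_one_of_dvd_one (by positivity) h
  have h2 := hp.two_le
  omega

lemma not_dvd_mul (hp : p.Prime) {a b : ℤ} (ha : ¬ (p : ℤ) ∣ a) (hb : ¬ (p : ℤ) ∣ b) :
    ¬ (p : ℤ) ∣ a * b := by
  intro h
  rcases (Nat.prime_iff_prime_int.mp hp).dvd_or_dvd h with h | h
  · exact ha h
  · exact hb h

lemma not_dvd_one (hp : p.Prime) : ¬ (p : ℤ) ∣ 1 := by
  intro h
  have := Int.eq_one_of_dvd_one (by positivity) h
  have h2 := hp.two_le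
  omega

lemma D.int (hp : p.Prime) (z : ℤ) : D p 0 (z : ℚ) :=
  ⟨z, 1, not_dvd_one hp, by simp⟩

lemma D.nat (hp : p.Prime) (z : ℕ) : D p 0 (z : ℚ) :=
  ⟨z, 1, not_dvd_one hp, by simp⟩

lemma D.one (hp : p.Prime) : D p 0 (1 : ℚ) := by
  simpa using D.nat hp 1

lemma D.add (hp : p.Prime) {n : ℕ} {x y : ℚ} (hx : D p n x) (hy : D p n y) : D p n (x + y) := by
  obtain ⟨a, b, hb, h1⟩ := hx
  obtain ⟨c, d, hd, h2⟩ := hy
  refine ⟨a * d + c * b, b * d, not_dvd_mul hp hb hd, ?_⟩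
  push_cast
  calc (x + y) * ((b : ℚ) * d) = (x * b) * d + (y * d) * b := by ring
    _ = _ := by rw [h1, h2]; ring

lemma D.neg {n : ℕ} {x : ℚ} (hx : D p n x) : D p n (-x) := by
  obtain ⟨a, b, hb, h1⟩ := hx
  refine ⟨-a, b, hb, ?_⟩
  push_cast
  rw [neg_mul, h1]; ring

lemma D.sub (hp : p.Prime) {n : ℕ} {x y : ℚ} (hx : D p n x) (hy : D p n y) : D p n (x - y) := by
  rw [sub_eq_add_neg]
  exact D.add hp hx hy.neg

lemma D.mul (hp : p.Prime) {n m : ℕ} {x y : ℚ} (hx : D p n x) (hy : D p m y) :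
    D p (n + m) (x * y) := by
  obtain ⟨a, b, hb, h1⟩ := hx
  obtain ⟨c, d, hd, h2⟩ := hy
  refine ⟨a * c, b * d, not_dvd_mul hp hb hd, ?_⟩
  push_cast
  calc x * y * ((b : ℚ) * d) = (x * b) * (y * d) := by ring
    _ = _ := by rw [h1, h2]; ring

lemma D.mul0 (hp : p.Prime) {n : ℕ} {x y : ℚ} (hx : D p n x) (hy : D p 0 y) :
    D p n (x * y) := by simpa using hx.mul hp hy

lemma D.mul0' (hp : p.Prime) {n : ℕ} {x y : ℚ} (hx : D p 0 x) (hy : D p n y) :
    D p n (x * y) := by simpa using hx.mul hp hy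

lemma D.mono {n m : ℕ} (h : m ≤ n) {x : ℚ} (hx : D p n x) : D p m x := by
  obtain ⟨a, b, hb, h1⟩ := hx
  refine ⟨(p : ℤ) ^ (n - m) * a, b, hb, ?_⟩
  rw [h1]
  push_cast
  rw [← mul_assoc, ← pow_add, Nat.add_sub_cancel' h]

lemma D.sum (hp : p.Prime) {n : ℕ} {ι : Type*} (s : Finset ι) (f : ι → ℚ)
    (h : ∀ i ∈ s, D p n (f i)) : D p n (∑ i ∈ s, f i) := by
  classical
  induction s using Finset.induction_on with
  | empty => simpa using D.zero' hp n
  | insert a s ha ih =>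
    rw [Finset.sum_insert ha]
    exact D.add hp (h a (Finset.mem_insert_self _ _))
      (ih (fun i hi => h i (Finset.mem_insert_of_mem hi)))

lemma D.prod (hp : p.Prime) {ι : Type*} (s : Finset ι) (f : ι → ℚ)
    (h : ∀ i ∈ s, D p 0 (f i)) : D p 0 (∏ i ∈ s, f i) := by
  classical
  induction s using Finset.induction_on with
  | empty => simpa using D.one hp
  | insert a s ha ih =>
    rw [Finset.prod_insert ha]
    exact D.mul0 hp (h a (Finset.mem_insert_self _ _))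
      (ih (fun i hi => h i (Finset.mem_insert_of_mem hi)))

lemma D.pow (hp : p.Prime) {x : ℚ} (hx : D p 0 x) (k : ℕ) : D p 0 (x ^ k) := by
  induction k with
  | zero => simpa using D.one hp
  | succ k ih => rw [pow_succ]; exact D.mul0 hp ih hx

lemma D.ppow (hp : p.Prime) (n : ℕ) : D p n ((p : ℚ) ^ n) :=
  ⟨1, 1, not_dvd_one hp, by simp⟩

lemma D.ppow' (hp : p.Prime) : D p 1 (p : ℚ) := by
  simpa using D.ppow hp 1

/-- dividing by an integer prime to `p` -/
lemma D.div_int {n : ℕ} {x : ℚ} (hx : D p n x) (hp : p.Prime) {c : ℤ} (hc : ¬ (p : ℤ) ∣ c) :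
    D p n (x / c) := by
  obtain ⟨a, b, hb, h1⟩ := hx
  have hc0 : (c : ℚ) ≠ 0 := by
    intro h
    apply hc
    have : c = 0 := by exact_mod_cast h
    simp [this]
  refine ⟨a, b * c, not_dvd_mul hp hb hc, ?_⟩
  push_cast
  rw [← h1]
  field_simp

lemma D.div_nat {n : ℕ} {x : ℚ} (hx : D p n x) (hp : p.Prime) {c : ℕ} (hc : ¬ p ∣ c) :
    D p n (x / c) := by
  have := hx.div_int hp (c := (c : ℤ)) (by exact_mod_cast hc)
  simpa using this

/-- a `p`-adic unit congruent to `1` can be cancelled -/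
lemma D.inv_of_one (hp : p.Prime) {x : ℚ} (hx : D p 1 (x - 1)) : x ≠ 0 ∧ D p 0 (x⁻¹) := by
  obtain ⟨a, b, hb, h1⟩ := hx
  have hb0 : (b : ℚ) ≠ 0 := by
    intro h
    apply hb
    have : b = 0 := by exact_mod_cast h
    simp [this]
  have h2 : x * b = ((p * a + b : ℤ) : ℚ) := by
    push_cast
    have : x * b = (x - 1) * b + b := by ring
    rw [this, h1]; ring
  have h3 : ¬ (p : ℤ) ∣ (p * a + b) := by
    intro h
    apply hb
    have := dvd_sub h (dvd_mul_right (p : ℤ) a)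
    simpa using this
  have h4 : ((p * a + b : ℤ) : ℚ) ≠ 0 := by
    intro h
    apply h3
    have : (p * a + b : ℤ) = 0 := by exact_mod_cast h
    simp [this]
  have hx0 : x ≠ 0 := by
    intro h
    rw [h, zero_mul] at h2
    exact h4 h2.symm
  refine ⟨hx0, b, p * a + b, h3, ?_⟩
  rw [← h2]
  field_simp

lemma D.cancel (hp : p.Prime) {n : ℕ} {x w : ℚ} (hw : D p 1 (w - 1)) (h : D p n (x * w)) :
    D p n x := by
  obtain ⟨h0, h1⟩ := D.inv_of_one hp hw
  have := h.mul0 hp h1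
  rwa [mul_assoc, mul_inv_cancel₀ h0, mul_one] at this

/-- expansion of a product to first order -/
lemma D.prod_one_add (hp : p.Prime) {m : ℕ} {ι : Type*} (s : Finset ι) (f : ι → ℚ)
    (h : ∀ i ∈ s, D p m (f i)) : D p (m + m) (∏ i ∈ s, (1 + f i) - 1 - ∑ i ∈ s, f i) := by
  classical
  induction s using Finset.induction_on with
  | empty => simpa using D.zero' hp (m + m)
  | insert a s ha ih =>
    rw [Finset.prod_insert ha, Finset.sum_insert ha]
    have h1 := ih (fun i hi => h i (Finset.mem_insert_of_mem hi))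
    have h2 := h a (Finset.mem_insert_self _ _)
    have h3 : D p m (∑ i ∈ s, f i) := D.sum hp s f (fun i hi => h i (Finset.mem_insert_of_mem hi))
    have h4 := h2.mul hp h3
    have h5 : D p (m + m) (f a * (∏ i ∈ s, (1 + f i) - 1 - ∑ i ∈ s, f i)) :=
      D.mul0' hp (h2.mono (Nat.zero_le _)) h1
    have : (1 + f a) * ∏ i ∈ s, (1 + f i) - 1 - (f a + ∑ i ∈ s, f i) =
      (∏ i ∈ s, (1 + f i) - 1 - ∑ i ∈ s, f i) + f a * ∑ i ∈ s, f i
      + f a * (∏ i ∈ s, (1 + f i) - 1 - ∑ i ∈ s, f i) := by ring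
    rw [this]
    exact D.add hp (D.add hp h1 h4) h5

/-- final form: a rational in `p ^ n ℤ_(p)` is `p ^ n` times a rational with denominator
prime to `p`. -/
lemma D.exists_den (hp : p.Prime) {n : ℕ} {x : ℚ} (hx : D p n x) :
    ∃ r : ℚ, x = (p : ℚ) ^ n * r ∧ Nat.Coprime r.den p := by
  obtain ⟨a, b, hb, h1⟩ := hx
  have hb0 : (b : ℚ) ≠ 0 := by
    intro h
    apply hb
    have : b = 0 := by exact_mod_cast h
    simp [this]
  refine ⟨(a : ℚ) / b, ?_, ?_⟩
  · field_simp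
    linarith [h1]
  · have h2 : (((a : ℚ) / b).den : ℤ) ∣ b := by
      rw [← Rat.divInt_eq_div]
      exact Rat.den_dvd a b
    rw [Nat.coprime_comm, Nat.Prime.coprime_iff_not_dvd hp]
    intro h3
    exact hb (dvd_trans (by exact_mod_cast h3) h2)

end Pool.Agent.Lib_d8ed36
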